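import Pool.Agent.Helper75.JE.Pos2
import Pool.Agent.Helper75.Jen.Ver3

set_option autoImplicit false
set_option maxHeartbeats 1000000

open Complex Filter Topology Metric MeasureTheory

namespace Pool.Agent.Helper75.JE

open Pool.Agent.Helper75.Jen

/-- `FF` near `-τ²`, rescaled -/
noncomputable def Ph (τ : ℝ) (ζ : ℂ) : ℂ := FF (((-(τ ^ 2) : ℝ) : ℂ) + 2 * τ * ζ)

lemma iter_diff {f : ℂ → ℂ} (hf : Differentiable ℂ f) (m : ℕ) :
    Differentiable ℂ (iteratedDeriv m f) := by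
  induction m with
  | zero => simpa using hf
  | succ m ih =>
    rw [iteratedDeriv_succ]
    intro z
    exact (ih.analyticAt z).deriv.differentiableAt

lemma Ph_diff (τ : ℝ) : Differentiable ℂ (Ph τ) := FF_diff.comp (by fun_prop)

lemma Ph_conj (τ : ℝ) (ζ : ℂ) : Ph τ (starRingEnd ℂ ζ) = starRingEnd ℂ (Ph τ ζ) := by
  unfold Ph
  rw [← FF_conj]
  congr 1
  rw [map_add, map_mul, map_mul, Complex.conj_ofReal, Complex.conj_ofReal, Complex.conj_ofNat]

lemma iter_aff {f : ℂ → ℂ} (hf : Differentiable ℂ f) (a c : ℂ) (m : ℕ) :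
    iteratedDeriv m (fun ζ => f (a + c * ζ)) = fun ζ => c ^ m * iteratedDeriv m f (a + c * ζ) := by
  induction m with
  | zero => funext ζ; simp
  | succ m ih =>
    rw [iteratedDeriv_succ, ih]
    funext ζ
    have h0 : HasDerivAt (fun ζ : ℂ => a + c * ζ) c ζ := by
      simpa using ((hasDerivAt_id ζ).const_mul c).const_add a
    have h1 : HasDerivAt (fun ζ => iteratedDeriv m f (a + c * ζ))
        (deriv (iteratedDeriv m f) (a + c * ζ) * c) ζ :=
      HasDerivAt.comp (h := fun ζ : ℂ => a + c * ζ) ζ (iter_diff hf m (a + c * ζ)).hasDerivAt h0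
    rw [(h1.const_mul (c ^ m)).deriv, iteratedDeriv_succ]
    ring

lemma Ph_iter (τ : ℝ) (m : ℕ) (ζ : ℂ) : iteratedDeriv m (Ph τ) ζ =
    (2 * τ : ℂ) ^ m * iteratedDeriv m FF (((-(τ ^ 2) : ℝ) : ℂ) + 2 * τ * ζ) := by
  unfold Ph
  rw [iter_aff FF_diff]

/-- the local estimates to the right of `b` at all large heights, with subexponential errors -/
def Est (b : ℝ) : Prop := ∀ R η : ℝ, 1 ≤ R → 0 < η → ∃ τ0 : ℝ, ∀ τ : ℝ, τ0 ≤ τ → ∃ M : ℝ, 0 < M ∧
  Loc b (Real.exp (η * Real.log τ)) (η * Real.sqrt (Real.log τ)) R (Real.log τ) M (Ph τ)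

lemma exists_L0 {δ R η : ℝ} (hδ : 0 < δ) (hR : 1 ≤ R) (hη : 0 < η) (hη1 : η ≤ δ / (160 * R))
    (hη2 : η ≤ 1 / (2000 * R)) : ∃ L0 : ℝ, 0 < L0 ∧ ∀ L m : ℝ, L0 ≤ L → L / 8 ≤ m → m ≤ R * L →
      Big δ (Real.exp (η * L)) (η * Real.sqrt L) R L m ∧ 1 ≤ η * Real.sqrt L := by
  have h1 : ∀ᶠ L : ℝ in atTop, 20 * R * (L ^ 1 * Real.exp (-(δ / (80 * R)) * L)) ≤ 1 := by
    have h2 := Real.tendsto_pow_mul_exp_neg_atTop_nhds_zero 1
    have h3 : Tendsto (fun L : ℝ => (δ / (80 * R)) * L) atTop atTop :=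
      tendsto_id.const_mul_atTop (by positivity)
    have h4 := (h2.comp h3).const_mul (20 * R * (80 * R / δ))
    rw [mul_zero] at h4
    have h5 : Tendsto (fun L : ℝ => 20 * R * (L ^ 1 * Real.exp (-(δ / (80 * R)) * L))) atTop (𝓝 0) := by
      refine h4.congr fun L => ?_
      simp only [Function.comp, pow_one]
      have : 80 * R / δ * (δ / (80 * R)) = 1 := by field_simp
      calc 20 * R * (80 * R / δ) * (δ / (80 * R) * L * Real.exp (-(δ / (80 * R) * L)))
          = 20 * R * ((80 * R / δ * (δ / (80 * R))) * L * Real.exp (-(δ / (80 * R) * L))) := by ring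
        _ = _ := by rw [this, one_mul, neg_mul]
    exact (h5.eventually (eventually_le_nhds (by norm_num : (0 : ℝ) < 1)))
  obtain ⟨L1, hL1⟩ := eventually_atTop.1 h1
  refine ⟨max 1 (max L1 (max (8 * 10 ^ 9) (max (1 / η ^ 2) (512 * R / δ)))), by positivity, ?_⟩
  intro L m hL hm1 hm2
  simp only [max_le_iff] at hL
  obtain ⟨a1, a2, a3, a4, a5⟩ := hL
  have hL0 : 0 < L := by linarith
  have hm0 : 0 < m := by linarith
  have hsq : Real.sqrt L ^ 2 = L := Real.sq_sqrt hL0.le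
  refine ⟨⟨by linarith, ?_, ?_, ?_⟩, ?_⟩
  · have e1 : 2 * 10 ^ 5 * (η * Real.sqrt L * R) ^ 2 = 2 * 10 ^ 5 * (η * R) ^ 2 * L := by
      rw [mul_pow, mul_pow, hsq]; ring
    rw [e1]
    have e2 : η * R ≤ 1 / 2000 := by
      rw [le_div_iff₀ (by positivity)] at hη2
      linarith
    have e3 : (η * R) ^ 2 ≤ (1 / 2000) ^ 2 := by gcongr
    calc 2 * 10 ^ 5 * (η * R) ^ 2 * L ≤ 2 * 10 ^ 5 * (1 / 2000) ^ 2 * L := by gcongr
      _ ≤ L / 8 := by nlinarith
      _ ≤ m := hm1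
  · rw [div_le_iff₀ (Real.sqrt_pos.2 hm0), ← Real.sqrt_mul (by positivity)]
    apply Real.le_sqrt_of_sq_le
    rw [div_le_iff₀ hδ] at a5
    rw [div_mul_eq_mul_div, le_div_iff₀ (by positivity)]
    nlinarith
  · have e1 : Real.exp (η * L) ^ 2 = Real.exp (2 * η * L) := by
      rw [← Real.exp_nat_mul]; congr 1; push_cast; ring
    rw [e1]
    have h3 := hL1 L a2
    calc 20 * m * Real.exp (2 * η * L) * Real.exp (-(L / 2 * (δ / (20 * R))))
        = 20 * m * Real.exp (2 * η * L + -(L / 2 * (δ / (20 * R)))) := by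
          rw [Real.exp_add]; ring
      _ ≤ 20 * (R * L) * Real.exp (-(δ / (80 * R)) * L) := by
          have e2 : 2 * η * L + -(L / 2 * (δ / (20 * R))) ≤ -(δ / (80 * R)) * L := by
            have e3 : 2 * η * L ≤ 2 * (δ / (160 * R)) * L := by gcongr
            have e4 : 2 * (δ / (160 * R)) * L = δ / (80 * R) * L := by field_simp; ring
            have e5 : L / 2 * (δ / (20 * R)) = 2 * (δ / (80 * R) * L) := by field_simp; ring
            linarith
          have := Real.exp_le_exp.2 e2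
          gcongr
      _ = 20 * R * (L ^ 1 * Real.exp (-(δ / (80 * R)) * L)) := by ring
      _ ≤ 1 := h3
  · have e1 : (1 / η) ≤ Real.sqrt L := by
      apply Real.le_sqrt_of_sq_le
      rw [one_div, inv_pow, ← one_div]
      exact a4
    rw [div_le_iff₀ hη] at e1
    linarith

theorem hS1_of_est {b : ℝ} (hb : 1 / 4 ≤ b) (hest : Est b) {c : ℝ} (hc : 0 < c) (hcb : c * b < 4) :
    ∃ (K : ℝ) (m0 : ℕ), 1 ≤ K ∧ ∀ m : ℕ, m0 ≤ m → ∀ z ∈ KK,
      iteratedDeriv m FF z = 0 → K * (m : ℝ) ^ 2 ≤ ‖z‖ → ‖z‖ ≤ Real.exp (c * m) →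
        z.im = 0 ∧ iteratedDeriv (m + 1) FF z ≠ 0 := by
  obtain ⟨C1, hC⟩ := logDeriv_Gx
  have hC1 := hC.1
  set R : ℝ := 4001 with hR
  set δ : ℝ := min ((4 / c - b) / 4) (1 / 8) with hδdef
  have hcb' : b < 4 / c := by rw [lt_div_iff₀ hc]; linarith
  have hδ : 0 < δ := lt_min (by linarith) (by norm_num)
  have hδ1 : δ ≤ 1 / 8 := min_le_right _ _
  have hδ2 : b + 4 * δ ≤ 4 / c := by
    have := min_le_left ((4 / c - b) / 4) (1 / 8)
    rw [← hδdef] at this
    linarith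
  set η : ℝ := min (δ / (160 * R)) (1 / (2000 * R)) with hηdef
  have hη : 0 < η := lt_min (by positivity) (by positivity)
  obtain ⟨τ0, hτ0⟩ := hest R η (by norm_num) hη
  obtain ⟨L0, hL0, hBig⟩ := exists_L0 (R := R) hδ (by norm_num) hη (min_le_left _ _)
    (min_le_right _ _)
  refine ⟨10 ^ 14 + 1, ⌈Real.exp (1000 * C1)⌉₊ + 10 ^ 9 + ⌈τ0⌉₊ + ⌈Real.exp L0⌉₊, by norm_num, ?_⟩
  intro m hm z hzK hz hlow hup
  have hm' : Real.exp (1000 * C1) + 10 ^ 9 + max τ0 0 + Real.exp L0 ≤ m := by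
    have h1 : ((⌈Real.exp (1000 * C1)⌉₊ + 10 ^ 9 + ⌈τ0⌉₊ + ⌈Real.exp L0⌉₊ : ℕ) : ℝ) ≤ m := by
      exact_mod_cast hm
    push_cast at h1
    have h2 : max τ0 0 ≤ (⌈τ0⌉₊ : ℝ) := max_le (Nat.le_ceil _) (Nat.cast_nonneg _)
    linarith [Nat.le_ceil (Real.exp (1000 * C1)), Nat.le_ceil (Real.exp L0)]
  have hexp : 0 < Real.exp (1000 * C1) := Real.exp_pos _
  have hexp2 : 0 < Real.exp L0 := Real.exp_pos _
  have hmx1 : τ0 ≤ max τ0 0 := le_max_left _ _
  have hmx2 : 0 ≤ max τ0 0 := le_max_right _ _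
  have hm9 : (10 : ℝ) ^ 9 ≤ m := by linarith
  have hm0 : (0 : ℝ) < m := by linarith
  have hKK : z.re + z.im ^ 2 ≤ 1 / 4 := hzK
  have hnorm : ‖z‖ ^ 2 = z.re ^ 2 + z.im ^ 2 := by
    rw [Complex.sq_norm, Complex.normSq_apply]; ring
  have hbig : 10 ^ 18 ≤ ‖z‖ := by nlinarith
  have hre : z.re < 0 := by
    by_contra hcon
    push Not at hcon
    nlinarith [sq_nonneg z.im]
  set τ := Real.sqrt (-z.re) with hτdef
  have hτsq : τ ^ 2 = -z.re := Real.sq_sqrt (by linarith)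
  have hτpos : 0 < τ := Real.sqrt_pos.2 (by linarith)
  have hn1 : ‖z‖ ≤ τ ^ 2 + 1 / 2 := by
    have : ‖z‖ ^ 2 ≤ (τ ^ 2 + 1 / 2) ^ 2 := by
      rw [hnorm]
      have e : z.re ^ 2 = (τ ^ 2) ^ 2 := by rw [hτsq]; ring
      rw [e]
      nlinarith
    exact le_of_sq_le_sq this (by positivity)
  have hn2 : τ ^ 2 ≤ ‖z‖ := by
    rw [hτsq]
    exact (neg_le_abs _).trans (abs_re_le_norm z)
  have hmt : 10 ^ 7 * (m : ℝ) ≤ τ := by
    have : (10 ^ 7 * (m : ℝ)) ^ 2 ≤ τ ^ 2 := by nlinarith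
    exact le_of_sq_le_sq this hτpos.le
  have hzeq : z = ⟨-(τ ^ 2), z.im⟩ := by
    apply Complex.ext
    · simp [hτsq]
    · rfl
  by_cases hcase : 2000 * Real.log τ ≤ m
  · have hpar : Par C1 τ m := by
      refine ⟨hm9, hmt, ?_, hcase⟩
      rw [Real.le_log_iff_exp_le hτpos]
      linarith
    rw [hzeq] at hz
    have := hS1_core hC hpar (y := z.im) (by linarith) hz
    rw [← hzeq] at this
    exact this
  · push Not at hcase
    set L := Real.log τ with hL
    have hLL0 : L0 ≤ L := by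
      rw [hL, Real.le_log_iff_exp_le hτpos]
      linarith
    have hLpos : 0 < L := by linarith
    have hLc : 2 * L ≤ c * m := by
      have h1 : Real.log (τ ^ 2) ≤ c * m := by
        rw [Real.log_le_iff_le_exp (by positivity)]
        exact hn2.trans hup
      rw [Real.log_pow] at h1
      push_cast at h1
      exact h1
    set ρ : ℝ := 2 * m / L with hρdef
    have hρL : L * ρ = 2 * m := by rw [hρdef]; field_simp
    have hρ4 : 4 / c ≤ ρ := by
      rw [hρdef, div_le_div_iff₀ hc hLpos]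
      linarith
    have hρR : ρ + 1 ≤ R := by
      have : ρ ≤ 4000 := by
        rw [hρdef, div_le_iff₀ hLpos]
        linarith
      rw [hR]
      linarith
    have hm1 : L / 8 ≤ m := by
      have : b ≤ ρ := by linarith
      have h2 : L * b ≤ 2 * m := by rw [← hρL]; gcongr
      nlinarith
    have hm2 : (m : ℝ) ≤ R * L := by
      rw [hR]
      nlinarith
    obtain ⟨hBg, hD⟩ := hBig L m hLL0 hm1 hm2
    obtain ⟨M, hM, hLoc⟩ := hτ0 τ (by linarith)
    set y' : ℝ := z.im / (2 * τ) with hy'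
    have hzim : 2 * τ * y' = z.im := by rw [hy']; field_simp
    have hzz : ((-(τ ^ 2) : ℝ) : ℂ) + 2 * τ * (⟨0, y'⟩ : ℂ) = z := by
      rw [hzeq]
      apply Complex.ext
      · rw [Complex.add_re, Complex.ofReal_re]
        simp
      · simp only [Complex.add_im, Complex.ofReal_im, Complex.mul_im, Complex.mul_re,
          Complex.ofReal_re, zero_add]
        norm_num
        exact hzim
    have hyle : |y'| ≤ 1 := by
      rw [hy', abs_div, div_le_one (by positivity)]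
      rw [abs_of_pos (by positivity : 0 < 2 * τ)]
      apply abs_le_of_sq_le_sq _ (by positivity)
      nlinarith
    have hz' : iteratedDeriv m (Ph τ) ⟨0, y'⟩ = 0 := by
      rw [Ph_iter, hzz, hz, mul_zero]
    have := local_real (Ph_diff τ) (Ph_conj τ) hLoc hBg hM
      (Real.one_le_exp (by positivity)) hD hb hδ hδ1 hLpos hρL (by linarith) hρR hyle hz'
    obtain ⟨r1, r2⟩ := this
    rw [Ph_iter, hzz] at r2
    refine ⟨?_, fun h0 => r2 (by rw [h0, mul_zero])⟩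
    rw [← hzim, r1, mul_zero]

end Pool.Agent.Helper75.JE
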