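import Pool.Agent.Helper75.JE.FxMu
import Pool.Agent.Helper85.DQ.XiReg

set_option autoImplicit false
set_option maxHeartbeats 1000000

open Complex Filter Topology Metric MeasureTheory Set

namespace Pool.Agent.Helper75.JE

open Pool.Agent.Helper75.Jen Pool.Agent.Helper85.DQ Pool.Agent.Helper85.LG

/-- the hypotheses of the saddle point analysis for `ω ↦ Ph τ (i ω)` -/
theorem hy_ph {y0 y1 ρ1 Y : ℝ} (hy0 : 0 < y0) (hreg : Reg y0) (h01 : y0 < y1) (h11 : y1 ≤ ρ1)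
    (hYρ : ρ1 ≤ Y) {ε : ℝ} (hε : 0 < ε) {h : ℝ} (hh : 0 ≤ h) : ∃ T : ℝ, 1 ≤ T ∧ ∀ τ : ℝ, T ≤ τ →
      Hy (fun ω => Ph τ (I * ω)) 0 (1 / 2 * Real.log τ) ε h y1 Y (Y + 20) ρ1 := by
  have hρ0 : 0 < ρ1 := by linarith
  set A : ℝ := Y + h + 6 with hA
  have hA6 : 6 ≤ A := by rw [hA]; linarith
  set ε' : ℝ := min (ε / 4) (1 / (4 * A)) with hε'
  have hε'0 : 0 < ε' := lt_min (by positivity) (by positivity)
  have hε'1 : ε' ≤ ε / 4 := min_le_left _ _
  have hε'2 : ε' ≤ 1 / (4 * A) := min_le_right _ _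
  obtain ⟨T1, hT1, H1⟩ := hy_xi (y0 := y0) (ρ1 := ρ1) (Y := Y + 3) hy0 hreg (by linarith)
    (by linarith) hε'0 (3 * A)
  refine ⟨max T1 (max (30 * A) (max (3 * A ^ 2 / (y1 - y0)) (max (3 * A ^ 2) (max (6 * A / ε)
    (Real.exp 6))))), hT1.trans (le_max_left _ _), fun τ hτ => ?_⟩
  simp only [max_le_iff] at hτ
  obtain ⟨t1, t2, t3, t4, t5, t6⟩ := hτ
  have hτ0 : 0 < τ := by linarith
  have hHy := H1 τ t1
  set L : ℝ := 1 / 2 * Real.log τ with hL
  have hL3 : 3 ≤ L := by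
    have : 6 ≤ Real.log τ := by rw [Real.le_log_iff_exp_le hτ0]; exact t6
    rw [hL]; linarith
  have hL0 : 0 < L := by linarith
  -- geometry
  set u : ℂ → ℂ := fun ω => ((-(τ ^ 2) : ℝ) : ℂ) + 2 * τ * (I * ω) with hu
  have hgeo : ∀ ω : ℂ, ‖ω‖ ≤ A → (u ω).re < 0 ∧ 86 / 100 * τ ≤ (wf (u ω)).im ∧
      ‖wf (u ω) - τ * I‖ ≤ 2 * A ∧ |(wf (u ω)).im - τ| ≤ 3 * A ∧
      |(wf (u ω)).re - ω.re| ≤ y1 - y0 ∧ |(wf (u ω)).re - ω.re| ≤ 1 := by
    intro ω hω
    have hζ : ‖I * ω‖ ≤ A := by rw [norm_mul, norm_I, one_mul]; exact hω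
    obtain ⟨g1, g2, g3, -, g5, g6⟩ := Pool.Agent.Helper82.JE.geo (R := A) (by linarith) t2 hζ
      (u := u ω) rfl
    have e : (I * ω).im = ω.re := by simp
    rw [e] at g6
    refine ⟨g1, g2, g3, g5, ?_, ?_⟩
    · have : |(wf (u ω)).re - ω.re| ≤ 3 * A ^ 2 / τ := by rw [le_div_iff₀ hτ0]; exact g6
      refine this.trans ?_
      rw [div_le_iff₀ (by linarith)] at t3
      rw [div_le_iff₀ hτ0]
      linarith
    · have : |(wf (u ω)).re - ω.re| ≤ 3 * A ^ 2 / τ := by rw [le_div_iff₀ hτ0]; exact g6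
      refine this.trans ?_
      rw [div_le_one hτ0]
      exact t4
  have hF : ∀ ω : ℂ, Ph τ (I * ω) = 8 * Fx (wf (u ω)) := by
    intro ω
    unfold Ph
    rw [FF_wf, fx_Fx]
  have hnorm : ∀ (ω : ℂ) (a b : ℝ), |ω.re| ≤ a → |ω.im| ≤ b → ‖ω‖ ≤ a + b := by
    intro ω a b h1 h2
    exact (Complex.norm_le_abs_re_add_abs_im ω).trans (add_le_add h1 h2)
  -- the crude bound
  have hcr : ∀ w : ℂ, |w.re| ≤ Y + 1 → |w.im| ≤ h + 2 →
      ‖Ph τ (I * w)‖ ≤ Real.exp ((Y + 20) * L) * ‖Ph τ (I * (ρ1 + (0 : ℝ) * I))‖ := by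
    intro w hw1 hw2
    have hwA : ‖w‖ ≤ A := (hnorm w _ _ hw1 hw2).trans (by rw [hA]; linarith)
    obtain ⟨g1, g2, g3, g4, g5, g6⟩ := hgeo w hwA
    set z1 : ℂ := wf (u ((ρ1 : ℂ) + (0 : ℝ) * I)) with hz1
    have hρn : ‖((ρ1 : ℂ) + (0 : ℝ) * I)‖ ≤ A := by
      have : ((ρ1 : ℂ) + (0 : ℝ) * I) = ((ρ1 : ℝ) : ℂ) := by simp
      rw [this, Complex.norm_real, Real.norm_of_nonneg hρ0.le, hA]
      linarith
    obtain ⟨k1, k2, k3, k4, k5, k6⟩ := hgeo _ hρn
    have hρre : ((ρ1 : ℂ) + (0 : ℝ) * I).re = ρ1 := by simp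
    rw [hρre] at k5 k6
    rw [← hz1] at k2 k3 k4 k5 k6
    have h1 := (hHy.crude (wf (u w)) (by
      have h3 := abs_add_le ((wf (u w)).re - w.re) w.re
      rw [sub_add_cancel] at h3
      linarith) (by linarith)).1
    have k5' := abs_le.1 k5
    have k6' := abs_le.1 k6
    have h2 := grow (F := Fx) Fx_diff (y0 := y0) (Y := Y + 3) (t := τ) (H := 3 * A + 1) (L := L) (ε := ε')
      hHy.reg (z1 := z1) (z2 := (ρ1 : ℂ) + τ * I)
      ⟨by linarith [k5'.1], by linarith [k6'.2], by linarith⟩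
      ⟨by simp; linarith, by simp; linarith, by simp; linarith⟩
    have hd : ‖(ρ1 : ℂ) + τ * I - z1‖ ≤ 4 * A := by
      have e : (ρ1 : ℂ) + τ * I - z1 = (ρ1 : ℂ) - (z1 - τ * I) := by ring
      rw [e]
      refine (norm_sub_le _ _).trans ?_
      rw [Complex.norm_real, Real.norm_of_nonneg hρ0.le]
      have : ρ1 ≤ A := by rw [hA]; linarith
      linarith
    have hexp : L * (((ρ1 : ℂ) + τ * I).re - z1.re) + ε' * L * ‖(ρ1 : ℂ) + τ * I - z1‖ ≤ 2 * L := by
      have e1 : ((ρ1 : ℂ) + τ * I).re = ρ1 := by simp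
      rw [e1]
      have h3 : L * (ρ1 - z1.re) ≤ L * 1 := mul_le_mul_of_nonneg_left (by linarith [k6'.1]) hL0.le
      have h4 : ε' * L * ‖(ρ1 : ℂ) + τ * I - z1‖ ≤ 1 / (4 * A) * L * (4 * A) := by gcongr
      have h5 : 1 / (4 * A) * L * (4 * A) = L := by field_simp
      linarith
    have h8 : (8 : ℝ) ≤ Real.exp (3 * L) := by
      have := Real.add_one_le_exp (3 * L)
      linarith
    rw [hF, hF, norm_mul, norm_mul, Complex.norm_ofNat, ← hz1]
    calc (8 : ℝ) * ‖Fx (wf (u w))‖ ≤ 8 * (Real.exp ((Y + 3 + 13) * L) * ‖Fx ((ρ1 : ℂ) + τ * I)‖) := by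
          gcongr
      _ ≤ 8 * (Real.exp ((Y + 3 + 13) * L) * (‖Fx z1‖ * Real.exp (2 * L))) := by
          gcongr
          exact h2.trans (by gcongr)
      _ = Real.exp ((Y + 3 + 13) * L + 2 * L) * (8 * ‖Fx z1‖) := by
          rw [Real.exp_add]; ring
      _ ≤ _ := by
          gcongr
          linarith
  have hFd : Differentiable ℂ (fun ω => Ph τ (I * ω)) := (Ph_diff τ).comp (by fun_prop)
  refine ⟨fun w hw1 hw2 hw3 => ?_, fun w hw1 hw2 => ⟨?_, ?_⟩⟩
  · rw [sub_zero] at hw3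
    have hwA : ‖w‖ ≤ A := by
      refine (hnorm w Y (h + 1) ?_ hw3).trans (by rw [hA]; linarith)
      rw [abs_of_nonneg (by linarith)]
      exact hw2
    obtain ⟨g1, g2, g3, g4, g5, g6⟩ := hgeo w hwA
    have g5' := abs_le.1 g5
    have g6' := abs_le.1 g6
    obtain ⟨r1, r2⟩ := hHy.reg (wf (u w)) (by linarith [g5'.1]) (by linarith [g6'.2]) (by linarith)
    have hW0 : wf (u w) ≠ 0 := by
      intro h0
      rw [h0, Complex.zero_im] at g2
      linarith
    have hne : Ph τ (I * w) ≠ 0 := by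
      rw [hF]
      exact mul_ne_zero (by norm_num) r1
    refine ⟨hne, ?_⟩
    -- the logarithmic derivative
    have hdu : HasDerivAt u (2 * τ * I) w := by
      have h1 : HasDerivAt (fun ω : ℂ => 2 * (τ : ℂ) * (I * ω)) (2 * τ * (I * 1)) w :=
        ((hasDerivAt_id w).const_mul I).const_mul _
      have h2 := h1.const_add (((-(τ ^ 2) : ℝ) : ℂ))
      rw [mul_one] at h2
      exact h2
    have hdW : HasDerivAt (fun ω => wf (u ω)) (1 / (2 * wf (u w)) * (2 * τ * I)) w :=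
      (wf_hasDeriv g1).comp w hdu
    have hdF : HasDerivAt (fun ω => Ph τ (I * ω))
        (8 * (deriv Fx (wf (u w)) * (1 / (2 * wf (u w)) * (2 * τ * I)))) w := by
      have h1 := ((Fx_diff (wf (u w))).hasDerivAt.comp w hdW).const_mul (8 : ℂ)
      have e : (fun ω => Ph τ (I * ω)) = fun ω => 8 * (Fx ∘ fun ω => wf (u ω)) ω := by
        funext ω
        exact hF ω
      rw [e]
      exact h1
    have hld : logDeriv (fun ω => Ph τ (I * ω)) w = logDeriv Fx (wf (u w)) * (τ * I / wf (u w)) := by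
      rw [logDeriv_apply, hdF.deriv, logDeriv_apply, hF]
      field_simp
    rw [hld]
    set q : ℂ := τ * I / wf (u w) with hq
    have hq1 : ‖q - 1‖ ≤ 3 * A / τ := by
      have e : q - 1 = -(wf (u w) - τ * I) / wf (u w) := by
        rw [hq]; field_simp; ring
      rw [e, norm_div, norm_neg]
      have h1 : 86 / 100 * τ ≤ ‖wf (u w)‖ := g2.trans ((le_abs_self _).trans (Complex.abs_im_le_norm _))
      calc ‖wf (u w) - τ * I‖ / ‖wf (u w)‖ ≤ 2 * A / (86 / 100 * τ) := by gcongr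
        _ ≤ 3 * A / τ := by
            rw [div_le_div_iff₀ (by positivity) hτ0]
            have : 0 < A * τ := by positivity
            nlinarith
    have hq2 : 3 * A / τ ≤ ε / 2 := by
      rw [div_le_iff₀ hε] at t5
      rw [div_le_iff₀ hτ0]
      linarith
    have hq3 : 3 * A / τ ≤ 1 := by
      rw [div_le_one hτ0]; linarith
    have hqn : ‖q‖ ≤ 2 := by
      have := norm_add_le (q - 1) 1
      rw [sub_add_cancel, norm_one] at this
      linarith
    have e2 : logDeriv Fx (wf (u w)) * q - (L : ℂ) =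
        (logDeriv Fx (wf (u w)) - (L : ℂ)) * q + (L : ℂ) * (q - 1) := by ring
    rw [e2]
    refine (norm_add_le _ _).trans ?_
    rw [norm_mul, norm_mul, Complex.norm_real, Real.norm_of_nonneg hL0.le]
    calc ‖logDeriv Fx (wf (u w)) - (L : ℂ)‖ * ‖q‖ + L * ‖q - 1‖
        ≤ (ε' * L) * 2 + L * (ε / 2) := by
          gcongr
          exact hq1.trans hq2
      _ ≤ (ε / 4 * L) * 2 + L * (ε / 2) := by gcongr
      _ = ε * L := by ring
  · rw [sub_zero] at hw2
    exact hcr w (by linarith) (by linarith)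
  · rw [sub_zero] at hw2
    have := Complex.norm_deriv_le_of_forall_mem_sphere_norm_le (f := fun ω => Ph τ (I * ω)) (c := w)
      (R := 1) (C := Real.exp ((Y + 20) * L) * ‖Ph τ (I * (ρ1 + (0 : ℝ) * I))‖) one_pos
      hFd.diffContOnCl (fun z hz => by
        rw [mem_sphere_iff_norm] at hz
        have r1 := Complex.abs_re_le_norm (z - w)
        have r2 := Complex.abs_im_le_norm (z - w)
        rw [hz] at r1 r2
        simp only [sub_re, sub_im] at r1 r2
        rw [abs_le] at hw1 hw2 r1 r2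
        refine hcr z ?_ ?_
        · rw [abs_le]; constructor <;> linarith [hw1.1, hw1.2, r1.1, r1.2]
        · rw [abs_le]; constructor <;> linarith [hw2.1, hw2.2, r2.1, r2.2])
    simpa using this

end Pool.Agent.Helper75.JE
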