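import Pool.Agent.Helper75.JE.Unc

set_option autoImplicit false
set_option maxHeartbeats 1000000

open Complex Filter Topology Metric MeasureTheory

namespace Pool.Agent.Helper75.JE

open Pool.Agent.Helper75.Jen

/-- local reality and simplicity of the zeros of the derivatives of `Ph τ` -/
def LocReal (ρ1 ρ2 : ℝ) : Prop := ∃ τ0 : ℝ, ∀ τ : ℝ, τ0 ≤ τ → ∀ m : ℕ,
  ρ1 * (Real.log τ / 2) ≤ m → (m : ℝ) ≤ ρ2 * (Real.log τ / 2) →
    ∀ y : ℝ, |y| ≤ 1 → iteratedDeriv m (Ph τ) ⟨0, y⟩ = 0 →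
      y = 0 ∧ iteratedDeriv (m + 1) (Ph τ) ⟨0, y⟩ ≠ 0

theorem hS1_of_loc {ρ1 ρ2 c : ℝ} (hc : 0 < c) (hρc : ρ1 ≤ 4 / c) (hρ2 : 4000 ≤ ρ2)
    (hloc : LocReal ρ1 ρ2) :
    ∃ (K : ℝ) (m0 : ℕ), 1 ≤ K ∧ ∀ m : ℕ, m0 ≤ m → ∀ z ∈ KK,
      iteratedDeriv m FF z = 0 → K * (m : ℝ) ^ 2 ≤ ‖z‖ → ‖z‖ ≤ Real.exp (c * m) →
        z.im = 0 ∧ iteratedDeriv (m + 1) FF z ≠ 0 := by
  obtain ⟨C1, hC⟩ := logDeriv_Gx
  have hC1 := hC.1
  obtain ⟨τ0, hτ0⟩ := hloc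
  set L0 : ℝ := 1 with hL0def
  refine ⟨10 ^ 14 + 1, ⌈Real.exp (1000 * C1)⌉₊ + 10 ^ 9 + ⌈τ0⌉₊ + ⌈Real.exp L0⌉₊, by norm_num, ?_⟩
  intro m hm z hzK hz hlow hup
  have hm' : Real.exp (1000 * C1) + 10 ^ 9 + max τ0 0 + Real.exp L0 ≤ m := by
    have h1 : ((⌈Real.exp (1000 * C1)⌉₊ + 10 ^ 9 + ⌈τ0⌉₊ + ⌈Real.exp L0⌉₊ : ℕ) : ℝ) ≤ m := by
      exact_mod_cast hm
    push_cast at h1
    have h2 : max τ0 0 ≤ (⌈τ0⌉₊ : ℝ) := max_le (Nat.le_ceil _) (Nat.cast_nonneg _)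
    linarith [Nat.le_ceil (Real.exp (1000 * C1)), Nat.le_ceil (Real.exp L0)]
  have hexp : 0 < Real.exp (1000 * C1) := Real.exp_pos _
  have hexp2 : 0 < Real.exp L0 := Real.exp_pos _
  have hmx1 : τ0 ≤ max τ0 0 := le_max_left _ _
  have hmx2 : 0 ≤ max τ0 0 := le_max_right _ _
  have hm9 : (10 : ℝ) ^ 9 ≤ m := by linarith
  have hm0 : (0 : ℝ) < m := by linarith
  have hKK : z.re + z.im ^ 2 ≤ 1 / 4 := hzK
  have hnorm : ‖z‖ ^ 2 = z.re ^ 2 + z.im ^ 2 := by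
    rw [Complex.sq_norm, Complex.normSq_apply]; ring
  have hbig : 10 ^ 18 ≤ ‖z‖ := by nlinarith
  have hre : z.re < 0 := by
    by_contra hcon
    push Not at hcon
    nlinarith [sq_nonneg z.im]
  set τ := Real.sqrt (-z.re) with hτdef
  have hτsq : τ ^ 2 = -z.re := Real.sq_sqrt (by linarith)
  have hτpos : 0 < τ := Real.sqrt_pos.2 (by linarith)
  have hn1 : ‖z‖ ≤ τ ^ 2 + 1 / 2 := by
    have : ‖z‖ ^ 2 ≤ (τ ^ 2 + 1 / 2) ^ 2 := by
      rw [hnorm]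
      have e : z.re ^ 2 = (τ ^ 2) ^ 2 := by rw [hτsq]; ring
      rw [e]
      nlinarith
    exact le_of_sq_le_sq this (by positivity)
  have hn2 : τ ^ 2 ≤ ‖z‖ := by
    rw [hτsq]
    exact (neg_le_abs _).trans (abs_re_le_norm z)
  have hmt : 10 ^ 7 * (m : ℝ) ≤ τ := by
    have : (10 ^ 7 * (m : ℝ)) ^ 2 ≤ τ ^ 2 := by nlinarith
    exact le_of_sq_le_sq this hτpos.le
  have hzeq : z = ⟨-(τ ^ 2), z.im⟩ := by
    apply Complex.ext
    · simp [hτsq]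
    · rfl
  by_cases hcase : 2000 * Real.log τ ≤ m
  · have hpar : Par C1 τ m := by
      refine ⟨hm9, hmt, ?_, hcase⟩
      rw [Real.le_log_iff_exp_le hτpos]
      linarith
    rw [hzeq] at hz
    have := hS1_core hC hpar (y := z.im) (by linarith) hz
    rw [← hzeq] at this
    exact this
  · push Not at hcase
    set L := Real.log τ with hL
    have hLL0 : L0 ≤ L := by
      rw [hL, Real.le_log_iff_exp_le hτpos]
      linarith
    have hLpos : 0 < L := by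
      rw [hL0def] at hLL0
      linarith
    have hLc : 2 * L ≤ c * m := by
      have h1 : Real.log (τ ^ 2) ≤ c * m := by
        rw [Real.log_le_iff_le_exp (by positivity)]
        exact hn2.trans hup
      rw [Real.log_pow] at h1
      push_cast at h1
      exact h1
    have hk1 : ρ1 * (L / 2) ≤ m := by
      calc ρ1 * (L / 2) ≤ 4 / c * (L / 2) := by gcongr
        _ = (2 * L) / c := by ring
        _ ≤ m := by rw [div_le_iff₀ hc]; linarith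
    have hk2 : (m : ℝ) ≤ ρ2 * (L / 2) := by
      calc (m : ℝ) ≤ 4000 * (L / 2) := by linarith
        _ ≤ ρ2 * (L / 2) := by gcongr
    set y' : ℝ := z.im / (2 * τ) with hy'
    have hzim : 2 * τ * y' = z.im := by rw [hy']; field_simp
    have hzz : ((-(τ ^ 2) : ℝ) : ℂ) + 2 * τ * (⟨0, y'⟩ : ℂ) = z := by
      rw [hzeq]
      apply Complex.ext
      · rw [Complex.add_re, Complex.ofReal_re]
        simp
      · simp only [Complex.add_im, Complex.ofReal_im, Complex.mul_im, Complex.mul_re,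
          Complex.ofReal_re, zero_add]
        norm_num
        exact hzim
    have hyle : |y'| ≤ 1 := by
      rw [hy', abs_div, div_le_one (by positivity)]
      rw [abs_of_pos (by positivity : 0 < 2 * τ)]
      apply abs_le_of_sq_le_sq _ (by positivity)
      nlinarith
    have hz' : iteratedDeriv m (Ph τ) ⟨0, y'⟩ = 0 := by
      rw [Ph_iter, hzz, hz, mul_zero]
    have := hτ0 τ (by linarith) m hk1 hk2 y' hyle hz'
    obtain ⟨r1, r2⟩ := this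
    rw [Ph_iter, hzz] at r2
    refine ⟨?_, fun h0 => r2 (by rw [h0, mul_zero])⟩
    rw [← hzim, r1, mul_zero]

/-- hyperbolicity from local reality -/
theorem hyp_of_loc {ρ1 ρ2 c : ℝ} (hc : 0 < c) (hρ1 : 0 < ρ1) (hcρ : c * ρ1 < 4) (hρ2 : 4000 ≤ ρ2)
    (hloc : LocReal ρ1 ρ2) :
    ∃ N0 : ℕ, ∀ d n : ℕ, N0 ≤ n → (d : ℝ) ≤ Real.exp (c * n) →
      ∀ z : ℂ, Jv d (fun j => iteratedDeriv (n + j) FF 0) z = 0 → z.im = 0 := by
  obtain ⟨C, hC, hgr⟩ := FF_growth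
  obtain ⟨P, hP1, hP2⟩ := approx FF_diff FF_conj FF_one FF_roots hC hgr
  have hconv : Conv FF P := ⟨FF_diff, hP1, hP2, FF_one, FF_np⟩
  -- a slightly larger constant
  have h0 : c < 4 / ρ1 := by rw [lt_div_iff₀ hρ1]; exact hcρ
  obtain ⟨c', hc1, hc2⟩ : ∃ c' : ℝ, c < c' ∧ c' ≤ 4 / ρ1 := ⟨4 / ρ1, h0, le_rfl⟩
  have hc'0 : 0 < c' := by linarith
  obtain ⟨K, m0, hK, hS1⟩ := hS1_of_loc (c := c') hc'0
    (by rw [le_div_iff₀ hc'0, mul_comm, ← le_div_iff₀ hρ1]; exact hc2) hρ2 hloc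
  obtain ⟨N0, hN0⟩ := main_exact hconv hC hgr (m0 := m0) hK hc'0 hS1
  refine ⟨max N0 ⌈1 / (c' - c)⌉₊, fun d n hn hd z hz => hN0 d n ((le_max_left _ _).trans hn) ?_ z hz⟩
  have h1 : 1 / (c' - c) ≤ n :=
    (Nat.le_ceil _).trans (by exact_mod_cast (le_max_right _ _).trans hn)
  rw [div_le_iff₀ (by linarith)] at h1
  have h2 : Real.exp (c' * n) = Real.exp (c * n) * Real.exp ((c' - c) * n) := by
    rw [← Real.exp_add]; congr 1; ring
  have h3 : (2 : ℝ) ≤ Real.exp ((c' - c) * n) := by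
    have := Real.add_one_le_exp ((c' - c) * n)
    linarith
  have h4 : 1 ≤ Real.exp (c * n) := Real.one_le_exp (by positivity)
  rw [h2]
  nlinarith

end Pool.Agent.Helper75.JE
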