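import Pool.Agent.Helper75.JE.Fin
import Pool.Agent.Helper75.JE.HyPh
import Pool.Agent.Helper68.PD.PhDir
import Pool.Agent.Helper68.JE.RegFew
import Pool.Agent.Helper68.JE.GrFew
import Pool.Agent.Helper68.JE.LhFew
import Pool.Agent.Helper82.JE.FxLh
import Pool.Agent.Helper82.JE.FxGr

set_option autoImplicit false
set_option maxHeartbeats 1000000

open Complex Filter Topology Metric MeasureTheory Set

namespace Pool.Agent.Helper75.JE

open Pool.Agent.Helper75.Jen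

lemma regFew : RegFew := fun h1 h2 h3 => Pool.Agent.Helper68.JE.reg_few h1 h2 h3

lemma phDir : PhDir := by
  intro y0 ρ1 ρ2 hy0 hreg h1 h2
  refine Pool.Agent.Helper68.PD.ph_dir_of hy0 ?_ h1 h2
  intro δ ε h Y R0 hδ hε hh hR hY
  obtain ⟨T, -, hT⟩ := hy_ph (y0 := y0) (y1 := y0 + δ) (ρ1 := R0) (Y := Y) hy0 hreg (by linarith) hR hY
    hε hh.le
  exact ⟨T, hT⟩

lemma grOfFew : GrOfFew := fun h1 h2 => Pool.Agent.Helper68.JE.gr_of_few h1 h2

lemma fxGrOf : FxGrOf := fun h1 hG _ _ hε hR => Pool.Agent.Helper82.JE.fx_gr h1 hG hε hR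

/-- the master theorem -/
theorem master_all {θ : ℝ} (hθ : 1 / 2 ≤ θ) (hθ1 : θ ≤ 1) :
    (∀ ε > 0, Few (θ + ε)) ↔ Gr θ ∧ ∀ c : ℝ, c * (θ - 1 / 2) < 4 → HypFF c :=
  master regFew phDir fxGrOf grOfFew hθ hθ1

/-- the Lindelöf hypothesis -/
def LHyp : Prop := ∀ ε > 0, ∃ C : ℝ, ∀ t : ℝ, 1 ≤ t → ‖riemannZeta (1 / 2 + t * I)‖ ≤ C * t ^ (ε : ℝ)

lemma fxGr_zero (h : LHyp) : FxGr 0 := by
  intro ε R hε hR
  obtain ⟨τ0, h1, h2⟩ := Pool.Agent.Helper82.JE.fx_lh h hε hR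
  refine ⟨τ0, h1, fun τ hτ w hw1 hw2 => ?_⟩
  rw [max_eq_left (abs_nonneg _)]
  exact h2 τ hτ w hw1 hw2

/-- all `c` below `4/(θ - 1/2)` from `Few θ` -/
theorem hyp_few {θ c : ℝ} (hF : Few θ) (hc : c * (θ - 1 / 2) < 4) : HypFF c :=
  hyp_of_few regFew phDir hF hc

/-- the case of the Lindelöf hypothesis -/
theorem master_lh : (∀ ε > 0, Few (1 / 2 + ε)) ↔ LHyp ∧ ∀ c : ℝ, HypFF c := by
  constructor
  · intro h
    refine ⟨Pool.Agent.Helper68.JE.lh_of_few h, fun c => ?_⟩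
    have hc0 := abs_nonneg c
    refine hyp_few (h (1 / (|c| + 1)) (by positivity)) ?_
    have h1 : c * (1 / 2 + 1 / (|c| + 1) - 1 / 2) = c / (|c| + 1) := by ring
    rw [h1, div_lt_iff₀ (by linarith)]
    have := le_abs_self c
    linarith
  · rintro ⟨hL, hH⟩ ε hε
    have := few_of_hyp le_rfl (by norm_num) (fxGr_zero hL) (c := 8 / ε) (by positivity) (by positivity)
      (hH _) (half_pos hε)
    refine this.mono ?_
    have : 4 / (8 / ε) = ε / 2 := by field_simp; norm_num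
    rw [this]
    linarith

end Pool.Agent.Helper75.JE
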