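import Pool.Agent.Helper75.JE.Mf
import Pool.Agent.Helper82.JE.Gro
import Pool.Agent.Helper85.DQ.Xst

set_option autoImplicit false
set_option maxHeartbeats 1000000

open Complex

namespace Pool.Agent.Helper75.JE

open Pool.Agent.Helper75.Jen

lemma fx_Fx (w : ℂ) : fx w = 8 * Pool.Agent.Helper85.DQ.Fx w := by
  unfold Pool.Agent.Helper85.DQ.Fx Pool.Agent.Helper85.LG.xi fx
  ring

lemma Mf_MM (t : ℝ) : Mf t = 8 * Pool.Agent.Helper85.DQ.MM t := by
  unfold Mf Pool.Agent.Helper85.DQ.MM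
  rw [fx_Fx, norm_mul, Complex.norm_ofNat]
  push_cast
  rw [show Real.log t / 2 = 1 / 2 * Real.log t by ring]
  ring

theorem fx_mu {ε : ℝ} (hε : 0 < ε) : ∃ s0 > 0, ∀ s : ℝ, 0 < s → s < s0 → ∀ R : ℝ, 1 ≤ R →
    ∃ τ0 : ℝ, ∀ τ : ℝ, τ0 ≤ τ → ∀ w : ℂ, |w.re| ≤ 1 / 2 - s → |w.im - τ| ≤ R →
      ‖fx w‖ ≤ Mf τ * Real.exp (Real.log τ / 2 * (1 / 2 - s + ε * s)) := by
  obtain ⟨s0, hs0, H⟩ := Pool.Agent.Helper85.DQ.xi_strip (ε / 2) (by positivity)
  refine ⟨min s0 (min (1 / 4) (1 / ε)), by positivity, fun s hs hss R hR => ?_⟩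
  have hss0 : s < s0 := lt_of_lt_of_le hss (min_le_left _ _)
  have hs4 : s < 1 / 4 := lt_of_lt_of_le hss ((min_le_right _ _).trans (min_le_left _ _))
  have hεs1 : ε * s ≤ 1 := by
    have h := lt_of_lt_of_le hss ((min_le_right _ _).trans (min_le_right _ _))
    rw [lt_div_iff₀ hε] at h
    linarith
  obtain ⟨T1, hT1, H1⟩ := H s hs hss0
  obtain ⟨T2, hT2, H2⟩ := Pool.Agent.Helper85.DQ.right_size (ε := ε * s / 4) (by positivity)
    (Y := 1) (H := R) le_rfl (by linarith)
  refine ⟨max (T1 + R) (max T2 (max (4 * R) (Real.exp (8 / (ε * s))))), fun τ hτ w hw1 hw2 => ?_⟩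
  simp only [max_le_iff] at hτ
  obtain ⟨a1, a2, a3, a4⟩ := hτ
  have hτ0 : 0 < τ := by linarith
  have hlog : 8 / (ε * s) ≤ Real.log τ := by
    rw [Real.le_log_iff_exp_le hτ0]
    exact a4
  have hw2' := abs_le.1 hw2
  have ht1 : T1 ≤ w.im := by linarith
  have ht0 : 0 < w.im := by linarith
  have h1 := H1 w.im w ht1 hw1 (by simp)
  have h2 := (H2 τ ((1 : ℝ) + w.im * I) a2 (by norm_num) (by norm_num) (by simpa using hw2)).1
  rw [Pool.Agent.Helper85.DQ.MM_mul] at h2
  rw [fx_Fx, Mf_MM, norm_mul, Complex.norm_ofNat, mul_assoc]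
  have hMM : 0 ≤ Pool.Agent.Helper85.DQ.MM τ := by
    unfold Pool.Agent.Helper85.DQ.MM
    positivity
  -- the difference of the logarithms
  have hL : |Real.log w.im - Real.log τ| ≤ 1 := by
    have hq : w.im / τ ≤ 5 / 4 := by
      rw [div_le_iff₀ hτ0]; linarith
    have hq' : 3 / 4 ≤ w.im / τ := by
      rw [le_div_iff₀ hτ0]; linarith
    rw [← Real.log_div ht0.ne' hτ0.ne', abs_le]
    constructor
    · have h3 : Real.exp (-1) ≤ w.im / τ := by
        refine le_trans ?_ hq'
        rw [Real.exp_neg, inv_le_comm₀ (Real.exp_pos _) (by norm_num)]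
        have := Real.add_one_le_exp 1
        norm_num at this ⊢
        linarith
      rw [Real.le_log_iff_exp_le (by positivity)]
      exact h3
    · rw [Real.log_le_iff_le_exp (by positivity)]
      have := Real.add_one_le_exp 1
      linarith
  have hL' := abs_le.1 hL
  set L : ℝ := Real.log τ / 2 with hLdef
  set L' : ℝ := 1 / 2 * Real.log w.im with hL'def
  have hM' : Pool.Agent.Helper85.DQ.MM w.im ≤ Pool.Agent.Helper85.DQ.MM τ *
      Real.exp (L * (1 + ε * s / 4) - L') := by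
    have h3 : Real.exp (L * (1 + ε * s / 4) - L') =
        Real.exp (1 / 2 * Real.log τ * ((1 : ℝ) + w.im * I : ℂ).re + ε * s / 4 * (1 / 2 * Real.log τ)) *
          (Real.exp L')⁻¹ := by
      rw [← Real.exp_neg, ← Real.exp_add]
      congr 1
      simp
      ring
    rw [h3, ← mul_assoc, ← div_eq_mul_inv, le_div_iff₀ (Real.exp_pos _)]
    exact h2
  have hfin : ‖Pool.Agent.Helper85.DQ.Fx w‖ ≤ Pool.Agent.Helper85.DQ.MM τ *
      Real.exp (L * (1 / 2 - s + ε * s)) := by
    calc ‖Pool.Agent.Helper85.DQ.Fx w‖ ≤ Pool.Agent.Helper85.DQ.MM w.im *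
          Real.exp ((1 / 2 - s + ε / 2 * s) * L') := h1
      _ ≤ (Pool.Agent.Helper85.DQ.MM τ * Real.exp (L * (1 + ε * s / 4) - L')) *
          Real.exp ((1 / 2 - s + ε / 2 * s) * L') := by gcongr
      _ = Pool.Agent.Helper85.DQ.MM τ * Real.exp ((L * (1 + ε * s / 4) - L') +
          (1 / 2 - s + ε / 2 * s) * L') := by
          rw [mul_assoc, ← Real.exp_add]
      _ ≤ _ := by
          refine mul_le_mul_of_nonneg_left (Real.exp_le_exp.2 ?_) hMM
          have hεs : 0 < ε * s := by positivity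
          have h4 : 1 ≤ ε * s / 4 * L := by
            rw [div_le_iff₀ hεs] at hlog
            have : ε * s / 4 * L = Real.log τ * (ε * s) / 8 := by rw [hLdef]; ring
            rw [this]
            linarith
          have h5 : |L - L'| ≤ 1 / 2 := by
            rw [hLdef, hL'def, abs_le]
            constructor <;> linarith
          have h5' := abs_le.1 h5
          have h7 : (L - L') * (1 / 2 + s - ε / 2 * s) ≤ 1 := by
            calc (L - L') * (1 / 2 + s - ε / 2 * s) ≤ 1 / 2 * (1 / 2 + s - ε / 2 * s) := by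
                  refine mul_le_mul_of_nonneg_right h5'.2 ?_
                  linarith
              _ ≤ 1 := by linarith
          linarith
  nlinarith [hfin]

end Pool.Agent.Helper75.JE
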