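import Pool.Agent.Helper75.JE.Conv
import Pool.Agent.Helper75.JE.FxMu
import Pool.Agent.Helper36.JenC

set_option autoImplicit false
set_option maxHeartbeats 4000000

open Complex Filter Topology Metric MeasureTheory Set

namespace Pool.Agent.Helper75.JE

open Pool.Agent.Helper75.Jen Pool.Agent.Helper36.JenC

/-- statement of the comparison lemma -/
def Smooth : Prop := ∀ {η R r : ℝ}, 0 < η → η ≤ 1 → 1 ≤ R → 0 < r → r ≤ 1 →
    ∃ C τ0 : ℝ, 0 ≤ C ∧ 2 ≤ τ0 ∧ ∀ τ : ℝ, τ0 ≤ τ → ∀ D : ℕ, τ ^ (2 + η) ≤ (D : ℝ) →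
      ∀ ζ : ℂ, ‖ζ‖ ≤ R → ∀ S : ℝ, (∀ ζ' : ℂ, ‖ζ' - ζ‖ ≤ r → ‖Ph τ ζ'‖ ≤ S) →
      ‖PD D FF (((-(τ ^ 2) : ℝ) : ℂ) + 2 * τ * ζ) - Ph τ ζ‖ ≤
        C * τ ^ (-(η / 2)) * S + Mf τ * Real.exp (-(τ ^ (η / 2)))

lemma Mf_pos (τ : ℝ) : 0 < Mf τ := Pool.Agent.Helper82.JE.Mf_pos_thm τ

lemma cmp (hSm : Smooth) {η : ℝ} (hη : 0 < η) (hη1 : η ≤ 1) :
    ∃ τ0 : ℝ, 2 ≤ τ0 ∧ ∀ τ : ℝ, τ0 ≤ τ → ∀ D : ℕ, τ ^ (2 + η) ≤ (D : ℝ) →
      ∀ ζ : ℂ, ‖ζ‖ ≤ 13 → ‖PD D FF (((-(τ ^ 2) : ℝ) : ℂ) + 2 * τ * ζ) - Ph τ ζ‖ ≤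
        Mf τ * Real.exp (Real.log τ / 2 * max |ζ.im| (1 / 2) - 3 / 4 * η * (Real.log τ / 2)) := by
  set r : ℝ := η / 8 with hr
  have hr0 : 0 < r := by positivity
  obtain ⟨C1, τ1, hC1, hτ1, H1⟩ := Pool.Agent.Helper82.JE.est_Mf (δ := r) (R := 14) hr0
    (by rw [hr]; linarith) (by norm_num)
  obtain ⟨C2, τ2, hC2, hτ2, H2⟩ := hSm (η := η) (R := 13) (r := r) hη hη1 (by norm_num) hr0
    (by rw [hr]; linarith)
  refine ⟨max τ1 (max τ2 (Real.exp (16 * Real.log (C1 * C2 + 1) / η))), hτ1.trans (le_max_left _ _),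
    fun τ hτ D hD ζ hζ => ?_⟩
  simp only [max_le_iff] at hτ
  obtain ⟨a1, a2, a3⟩ := hτ
  have hτ0 : 0 < τ := by linarith
  have hlog : 16 * Real.log (C1 * C2 + 1) / η ≤ Real.log τ := by
    rw [Real.le_log_iff_exp_le hτ0]; exact a3
  set L : ℝ := Real.log τ / 2 with hL
  have hL0 : 0 ≤ L := by
    have := Real.log_nonneg (by linarith : (1 : ℝ) ≤ τ)
    positivity
  set m : ℝ := max |ζ.im| (1 / 2) with hm
  have hm0 : 0 ≤ m := le_trans (by norm_num) (le_max_right _ _)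
  have hM := Mf_pos τ
  have hS := H2 τ a2 D hD ζ hζ (C1 * Mf τ * Real.exp (L * (m + r))) (by
    intro ζ' hζ'
    have h1 : ‖ζ'‖ ≤ 14 := by
      have : ‖ζ'‖ ≤ ‖ζ' - ζ‖ + ‖ζ‖ := by simpa using norm_add_le (ζ' - ζ) ζ
      have hr1 : r ≤ 1 := by rw [hr]; linarith
      linarith
    refine ((H1 τ a1).1 ζ' h1).trans ?_
    have h2 : max |ζ'.im| (1 / 2 + r) ≤ m + r := by
      refine max_le ?_ (by linarith [le_max_right |ζ.im| (1 / 2 : ℝ)])
      have h3 : |ζ'.im| ≤ |ζ.im| + |(ζ' - ζ).im| := by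
        rw [sub_im]
        have := abs_add_le ζ.im (ζ'.im - ζ.im)
        simpa using this
      have h4 := abs_im_le_norm (ζ' - ζ)
      linarith [le_max_left |ζ.im| (1 / 2 : ℝ)]
    gcongr)
  refine hS.trans ?_
  have e1 : τ ^ (-(η / 2)) = Real.exp (-(η * L)) := by
    rw [Real.rpow_def_of_pos hτ0]
    congr 1
    rw [hL]; ring
  have e2 : τ ^ (η / 2) = Real.exp (η * L) := by
    rw [Real.rpow_def_of_pos hτ0]
    congr 1
    rw [hL]; ring
  have h5 : Real.exp (-(τ ^ (η / 2))) ≤ Real.exp (L * (m + r) - η * L) := by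
    apply Real.exp_le_exp.2
    rw [e2]
    have h6 := Real.add_one_le_exp (η * L)
    have h7 : 0 ≤ L * (m + r) := by positivity
    linarith
  have h8 : C1 * C2 + 1 ≤ Real.exp (η * L / 8) := by
    rw [← Real.log_le_iff_le_exp (by positivity)]
    rw [div_le_iff₀ hη] at hlog
    have : η * L / 8 = Real.log τ * η / 16 := by rw [hL]; ring
    rw [this]
    linarith
  calc C2 * τ ^ (-(η / 2)) * (C1 * Mf τ * Real.exp (L * (m + r))) + Mf τ * Real.exp (-(τ ^ (η / 2)))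
      ≤ C2 * τ ^ (-(η / 2)) * (C1 * Mf τ * Real.exp (L * (m + r))) +
        Mf τ * Real.exp (L * (m + r) - η * L) := by gcongr
    _ = (C1 * C2 + 1) * (Mf τ * Real.exp (L * (m + r) - η * L)) := by
        rw [e1, sub_eq_add_neg (L * (m + r)), Real.exp_add]
        ring
    _ ≤ Real.exp (η * L / 8) * (Mf τ * Real.exp (L * (m + r) - η * L)) := by gcongr
    _ = Mf τ * Real.exp (L * m - 3 / 4 * η * L) := by
        rw [mul_left_comm, ← Real.exp_add]
        congr 2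
        rw [hr]; ring

lemma mu_Ph {ε : ℝ} (hε : 0 < ε) (hε1 : ε ≤ 1) : ∃ s0 > 0, ∀ s : ℝ, 0 < s → s < s0 →
    ∃ τ0 : ℝ, ∀ τ : ℝ, τ0 ≤ τ → ∀ ζ : ℂ, ‖ζ‖ ≤ 13 → |ζ.im| ≤ 1 / 2 - s →
      ‖Ph τ ζ‖ ≤ Mf τ * Real.exp (Real.log τ / 2 * (1 / 2 - s + ε * s)) := by
  obtain ⟨s0, hs0, H⟩ := fx_mu (ε := ε / 4) (by positivity)
  refine ⟨s0, hs0, fun s hs hss => ?_⟩
  set s' : ℝ := s * (1 - ε / 4) with hs'
  have hεs : 0 < ε * s := by positivity
  have hs'0 : 0 < s' := by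
    rw [hs']; exact mul_pos hs (by linarith)
  have hs's : s' < s := by
    rw [hs']; nlinarith
  obtain ⟨τ1, H1⟩ := H s' hs'0 (hs's.trans hss) 39 (by norm_num)
  refine ⟨max τ1 (max 390 (4 * 507 / (ε * s))), fun τ hτ ζ hζ hζi => ?_⟩
  simp only [max_le_iff] at hτ
  obtain ⟨a1, a2, a3⟩ := hτ
  have hτ0 : 0 < τ := by linarith
  obtain ⟨-, -, -, -, g1, g2⟩ := Pool.Agent.Helper82.JE.geo (R := 13) (by norm_num) (by linarith) hζ
    (u := ((-(τ ^ 2) : ℝ) : ℂ) + 2 * τ * ζ) rfl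
  have g3 : |(wf (((-(τ ^ 2) : ℝ) : ℂ) + 2 * τ * ζ)).re - ζ.im| ≤ ε * s / 4 := by
    have h1 : |(wf (((-(τ ^ 2) : ℝ) : ℂ) + 2 * τ * ζ)).re - ζ.im| ≤ 507 / τ := by
      rw [le_div_iff₀ hτ0]
      refine g2.trans (by norm_num)
    refine h1.trans ?_
    rw [div_le_iff₀ hεs] at a3
    rw [div_le_iff₀ hτ0]
    linarith
  have h2 := H1 τ a1 (wf (((-(τ ^ 2) : ℝ) : ℂ) + 2 * τ * ζ)) (by
    have h3 := abs_add_le ((wf (((-(τ ^ 2) : ℝ) : ℂ) + 2 * τ * ζ)).re - ζ.im) ζ.im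
    rw [sub_add_cancel] at h3
    have h4 : s' = s - ε * s / 4 := by rw [hs']; ring
    linarith) (g1.trans (by norm_num))
  unfold Ph
  rw [FF_wf]
  refine h2.trans ?_
  have hM := Mf_pos τ
  have hL0 : 0 ≤ Real.log τ / 2 := by
    have := Real.log_nonneg (by linarith : (1 : ℝ) ≤ τ)
    positivity
  refine mul_le_mul_of_nonneg_left (Real.exp_le_exp.2 (mul_le_mul_of_nonneg_left ?_ hL0)) hM.le
  have h4 : s' = s - ε * s / 4 := by rw [hs']; ring
  have h5 : ε / 4 * s' ≤ ε / 4 * s := mul_le_mul_of_nonneg_left hs's.le (by positivity)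
  linarith

lemma PD_diff (D : ℕ) (f : ℂ → ℂ) : Differentiable ℂ (PD D f) := by
  unfold PD
  fun_prop

theorem strip_of_hyp (hSL : SaddleLow) (hSm : Smooth) {c : ℝ} (hc : 8 < c) {N0 : ℕ}
    (H : ∀ d n : ℕ, N0 ≤ n → (d : ℝ) ≤ Real.exp (c * n) →
      ∀ z : ℂ, Jv d (fun j => iteratedDeriv (n + j) FF 0) z = 0 → z.im = 0) :
    ∃ σ > 0, ∃ T : ℝ, ∀ w : ℂ, T ≤ w.im → 1 / 2 - σ ≤ w.re → fx w ≠ 0 := by
  have hc0 : 0 < c := by linarith
  set η : ℝ := min 1 ((c - 8) / 8) with hη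
  have hη0 : 0 < η := lt_min one_pos (by linarith)
  have hη1 : η ≤ 1 := min_le_left _ _
  have hηc : η ≤ (c - 8) / 8 := min_le_right _ _
  set ρ1 : ℝ := 2 * (2 + η) / c with hρ1
  have hρ10 : 0 < ρ1 := by positivity
  have hρ1h : ρ1 < 1 / 2 := by
    rw [hρ1, div_lt_iff₀ hc0]
    linarith
  have hcρ : c * ρ1 = 2 * (2 + η) := by
    rw [hρ1]; field_simp
  set ρ2 : ℝ := (ρ1 + 1 / 2) / 2 with hρ2
  have hρ12 : ρ1 < ρ2 := by rw [hρ2]; linarith
  have hρ2h : ρ2 < 1 / 2 := by rw [hρ2]; linarith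
  set g : ℝ := 1 - 2 * ρ2 with hg
  have hg0 : 0 < g := by rw [hg]; linarith
  have hg1 : g ≤ 1 := by rw [hg]; linarith
  obtain ⟨s0, hs0, Hs⟩ := mu_Ph (ε := g / 16) (by positivity) (by linarith)
  set s : ℝ := min (s0 / 2) (min (η / 4) (g / 8)) with hs
  have hspos : 0 < s := lt_min (by positivity) (lt_min (by positivity) (by positivity))
  have hss0 : s < s0 := lt_of_le_of_lt (min_le_left _ _) (by linarith)
  have hsη : s ≤ η / 4 := (min_le_right _ _).trans (min_le_left _ _)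
  have hsg : s ≤ g / 8 := (min_le_right _ _).trans (min_le_right _ _)
  obtain ⟨τ1, H1⟩ := Hs s hspos hss0
  obtain ⟨ε, hε, L0, HC⟩ := conv_abs hSL (ρ1 := ρ1) (ρ2 := ρ2) (s := s) hρ10 hρ12.le hρ2h hspos hsg
  rw [← hg] at HC
  obtain ⟨τ2, hτ2, H2⟩ := cmp hSm hη0 hη1
  set δ : ℝ := min (1 / 8) (ε / 4) with hδ
  have hδ0 : 0 < δ := lt_min (by norm_num) (by positivity)
  have hδ1 : δ ≤ 1 / 8 := min_le_left _ _
  have hδε : δ ≤ ε / 4 := min_le_right _ _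
  obtain ⟨C1, τ3, hC1, hτ3, H3⟩ := Pool.Agent.Helper82.JE.est_Mf (δ := δ) (R := 13) hδ0 hδ1
    (by norm_num)
  -- a threshold for `L`
  set L1 : ℝ := max L0 (max 1 (max (1 / (ρ2 - ρ1)) (max (N0 / ρ1) (max (2 * Real.log (C1 + 1) / ε)
    (max (16 / (g * s)) (max (2 * Real.log (2 * C1) / η) (Real.log (2 * C1) / ε))))))) with hL1
  refine ⟨g * s / 16, by positivity, max τ1 (max τ2 (max τ3 (Real.exp (2 * L1)))),
    fun w0 hw0 hw0re hfx => ?_⟩
  simp only [max_le_iff] at hw0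
  obtain ⟨a1, a2, a3, a4⟩ := hw0
  obtain ⟨b, hb⟩ : ∃ b : ℝ, b = w0.re := ⟨_, rfl⟩
  obtain ⟨τ, hτ⟩ : ∃ τ : ℝ, τ = w0.im := ⟨_, rfl⟩
  rw [← hτ] at a1 a2 a3 a4
  rw [← hb] at hw0re
  have hw0eq : w0 = (b : ℂ) + τ * I := by
    rw [hb, hτ]; exact (Complex.re_add_im w0).symm
  have hb2 : |b| < 1 / 2 := by rw [hb]; exact fx_zero_re hfx
  have hb2' := abs_lt.1 hb2
  have hτ2' : 2 ≤ τ := hτ2.trans a2
  have hτ0 : 0 < τ := by linarith
  obtain ⟨L, hL⟩ : ∃ L : ℝ, L = Real.log τ / 2 := ⟨_, rfl⟩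
  have hLL1 : L1 ≤ L := by
    rw [hL, le_div_iff₀ (by norm_num), Real.le_log_iff_exp_le hτ0, mul_comm]
    exact a4
  have hLL := hLL1
  rw [hL1] at hLL
  simp only [max_le_iff] at hLL
  obtain ⟨l1, l2, l3, l4, l5, l6, l7, l8⟩ := hLL
  have hL0 : 0 < L := by linarith
  have hM := Mf_pos τ
  -- the parameters
  set m : ℕ := ⌈ρ1 * L⌉₊ with hm
  have hm1 : ρ1 * L ≤ m := Nat.le_ceil _
  have hm2 : (m : ℝ) < ρ1 * L + 1 := Nat.ceil_lt_add_one (by positivity)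
  have hm0 : 0 < m := by
    have : (0 : ℝ) < m := lt_of_lt_of_le (by positivity) hm1
    exact_mod_cast this
  have hm3 : (m : ℝ) ≤ ρ2 * L := by
    rw [div_le_iff₀ (by linarith)] at l3
    linarith
  obtain ⟨n, hn⟩ : ∃ n : ℕ, m = n + 1 := ⟨m - 1, by omega⟩
  set D : ℕ := ⌈τ ^ (2 + η)⌉₊ with hD
  have hD1 : τ ^ (2 + η) ≤ D := Nat.le_ceil _
  have hD2 : (D : ℝ) < τ ^ (2 + η) + 1 := Nat.ceil_lt_add_one (by positivity)
  have hexp : τ ^ (2 + η) = Real.exp (c * (ρ1 * L)) := by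
    rw [Real.rpow_def_of_pos hτ0]
    congr 1
    rw [← mul_assoc, hcρ, hL]; ring
  have hmD : m ≤ D := by
    have h1 : (m : ℝ) ≤ D := by
      have h2 : L ≤ τ := by
        have := Real.log_le_sub_one_of_pos hτ0
        rw [hL]; linarith
      have h3 : τ ≤ τ ^ (2 + η) := by
        have := Real.rpow_le_rpow_of_exponent_le (by linarith : (1 : ℝ) ≤ τ) (by linarith : (1 : ℝ) ≤ 2 + η)
        rwa [Real.rpow_one] at this
      calc (m : ℝ) ≤ ρ2 * L := hm3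
        _ ≤ 1 * L := by gcongr; linarith
        _ ≤ τ := by linarith
        _ ≤ τ ^ (2 + η) := h3
        _ ≤ D := hD1
    exact_mod_cast h1
  have hD1' : 1 ≤ D := by omega
  have hdeg : ((D - m : ℕ) : ℝ) ≤ Real.exp (c * m) := by
    rw [Nat.cast_sub hmD]
    have h1 : (1 : ℝ) ≤ m := by exact_mod_cast hm0
    have h2 : Real.exp (c * (ρ1 * L)) ≤ Real.exp (c * m) := Real.exp_le_exp.2 (by gcongr)
    rw [← hexp] at h2
    linarith
  have hN0m : N0 ≤ m := by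
    rw [div_le_iff₀ hρ10] at l4
    have : (N0 : ℝ) ≤ m := by linarith
    exact_mod_cast this
  -- the shifted function
  set x0 : ℝ := b ^ 2 / (2 * τ) with hx0
  have hx00 : 0 ≤ x0 := by positivity
  have hx01 : x0 ≤ 1 := by
    rw [hx0, div_le_one (by positivity)]
    nlinarith
  set G : ℂ → ℂ := fun w => PD D FF (((-(τ ^ 2) : ℝ) : ℂ) + 2 * τ * (I * w + x0)) with hG
  have hGd : Differentiable ℂ G := (PD_diff D FF).comp (by fun_prop)
  have hζn : ∀ w : ℂ, ‖w‖ ≤ 12 → ‖I * w + x0‖ ≤ 13 := by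
    intro w hw
    refine (norm_add_le _ _).trans ?_
    rw [norm_mul, Complex.norm_I, one_mul, Complex.norm_real, Real.norm_of_nonneg hx00]
    linarith
  have hζi : ∀ w : ℂ, (I * w + x0).im = w.re := by
    intro w
    simp
  have hcmp : ∀ w : ℂ, ‖w‖ ≤ 12 → ‖G w - Ph τ (I * w + x0)‖ ≤
      Mf τ * Real.exp (L * max |w.re| (1 / 2) - 3 / 4 * η * L) := by
    intro w hw
    have := H2 τ a2 D hD1 (I * w + x0) (hζn w hw)
    rwa [hζi, ← hL] at this
  have hC1' : 2 ≤ Real.exp (g / 16 * s * L) := by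
    have h1 : 1 ≤ g / 16 * s * L := by
      rw [div_le_iff₀ (by positivity)] at l6
      linarith
    have := Real.add_one_le_exp (g / 16 * s * L)
    linarith
  -- U1
  have hU1 : ∀ w : ℂ, ‖w‖ ≤ 12 → ‖G w‖ ≤ Mf τ * Real.exp (L * max |w.re| (1 / 2) + ε * L) := by
    intro w hw
    have h1 := (H3 τ a3).1 (I * w + x0) (hζn w hw)
    rw [hζi, ← hL] at h1
    have h2 := hcmp w hw
    have h3 : max |w.re| (1 / 2 + δ) ≤ max |w.re| (1 / 2) + δ :=
      max_le (by linarith [le_max_left |w.re| (1 / 2 : ℝ)]) (by linarith [le_max_right |w.re| (1 / 2 : ℝ)])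
    have h4 : C1 + 1 ≤ Real.exp (ε * L / 2) := by
      rw [← Real.log_le_iff_le_exp (by positivity)]
      rw [div_le_iff₀ hε] at l5
      linarith
    calc ‖G w‖ = ‖Ph τ (I * w + x0) + (G w - Ph τ (I * w + x0))‖ := by rw [add_sub_cancel]
      _ ≤ ‖Ph τ (I * w + x0)‖ + ‖G w - Ph τ (I * w + x0)‖ := norm_add_le _ _
      _ ≤ C1 * Mf τ * Real.exp (L * (max |w.re| (1 / 2) + δ)) +
          Mf τ * Real.exp (L * (max |w.re| (1 / 2) + δ)) := by
          refine add_le_add (h1.trans (by gcongr)) (h2.trans ?_)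
          refine mul_le_mul_of_nonneg_left (Real.exp_le_exp.2 ?_) hM.le
          have h5 : 0 ≤ L * δ := by positivity
          have h6 : 0 ≤ 3 / 4 * η * L := by positivity
          linarith
      _ = (C1 + 1) * (Mf τ * Real.exp (L * (max |w.re| (1 / 2) + δ))) := by ring
      _ ≤ Real.exp (ε * L / 2) * (Mf τ * Real.exp (L * (max |w.re| (1 / 2) + δ))) := by gcongr
      _ = Mf τ * Real.exp (ε * L / 2 + L * (max |w.re| (1 / 2) + δ)) := by
          rw [mul_left_comm, ← Real.exp_add]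
      _ ≤ _ := by
          refine mul_le_mul_of_nonneg_left (Real.exp_le_exp.2 ?_) hM.le
          have h5 : L * δ ≤ L * (ε / 4) := by gcongr
          have h6 : 0 ≤ ε * L := by positivity
          linarith
  -- U2
  have hU2 : ∀ w : ℂ, ‖w‖ ≤ 12 → |w.re| ≤ 1 / 2 - s →
      ‖G w‖ ≤ Mf τ * Real.exp (L * (1 / 2 - s + g / 8 * s)) := by
    intro w hw hwre
    have h1 := H1 τ a1 (I * w + x0) (hζn w hw) (by rw [hζi]; exact hwre)
    rw [← hL] at h1
    have h2 := hcmp w hw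
    have h3 : max |w.re| (1 / 2) = 1 / 2 := max_eq_right (by linarith)
    rw [h3] at h2
    calc ‖G w‖ = ‖Ph τ (I * w + x0) + (G w - Ph τ (I * w + x0))‖ := by rw [add_sub_cancel]
      _ ≤ ‖Ph τ (I * w + x0)‖ + ‖G w - Ph τ (I * w + x0)‖ := norm_add_le _ _
      _ ≤ Mf τ * Real.exp (L * (1 / 2 - s + g / 16 * s)) +
          Mf τ * Real.exp (L * (1 / 2 - s + g / 16 * s)) := by
          refine add_le_add h1 (h2.trans ?_)
          refine mul_le_mul_of_nonneg_left (Real.exp_le_exp.2 ?_) hM.le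
          have h5 : s * L ≤ η / 4 * L := by gcongr
          have h6 : 0 ≤ g / 16 * s * L := by positivity
          have h7 : 0 ≤ η * L := by positivity
          linarith
      _ = 2 * (Mf τ * Real.exp (L * (1 / 2 - s + g / 16 * s))) := by ring
      _ ≤ Real.exp (g / 16 * s * L) * (Mf τ * Real.exp (L * (1 / 2 - s + g / 16 * s))) := by gcongr
      _ = _ := by
          rw [mul_left_comm, ← Real.exp_add]
          congr 2
          ring
  -- the value at 5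
  have h5 : Mf τ * Real.exp (L * 5 - ε * L) ≤ ‖G 5‖ := by
    have h5n : ‖(5 : ℂ)‖ ≤ 12 := by norm_num
    have h1 := ((H3 τ a3).2 (I * 5 + x0) (hζn 5 h5n) (by
      rw [hζi]
      norm_num
      linarith)).2.2
    rw [hζi, ← hL] at h1
    have e5 : (5 : ℂ).re = 5 := by norm_num
    have h2 := hcmp 5 h5n
    rw [e5] at h1 h2
    have h3 : max |(5 : ℝ)| (1 / 2) = 5 := by norm_num
    rw [h3] at h2
    have h4 : 2 * C1 ≤ Real.exp (3 / 4 * η * L) := by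
      rw [← Real.log_le_iff_le_exp (by positivity)]
      rw [div_le_iff₀ hη0] at l7
      have : 0 ≤ η * L := by positivity
      linarith
    have h4' : 2 * C1 ≤ Real.exp (ε * L) := by
      rw [← Real.log_le_iff_le_exp (by positivity)]
      rw [div_le_iff₀ hε] at l8
      linarith
    have h6 : ‖Ph τ (I * 5 + x0)‖ ≤ ‖G 5‖ + ‖G 5 - Ph τ (I * 5 + x0)‖ := by
      have := norm_sub_le (G 5) (G 5 - Ph τ (I * 5 + x0))
      rwa [sub_sub_cancel] at this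
    obtain ⟨E, hE⟩ : ∃ E : ℝ, E = Mf τ * Real.exp (L * 5) := ⟨_, rfl⟩
    have hE0 : 0 < E := by rw [hE]; positivity
    have h7 : Mf τ * Real.exp (L * 5 - 3 / 4 * η * L) ≤ E / (2 * C1) := by
      rw [le_div_iff₀ (by positivity)]
      calc Mf τ * Real.exp (L * 5 - 3 / 4 * η * L) * (2 * C1)
          ≤ Mf τ * Real.exp (L * 5 - 3 / 4 * η * L) * Real.exp (3 / 4 * η * L) := by gcongr
        _ = E := by rw [hE, mul_assoc, ← Real.exp_add]; congr 2; ring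
    have h8 : Mf τ * Real.exp (L * 5 - ε * L) ≤ E / (2 * C1) := by
      rw [le_div_iff₀ (by positivity)]
      calc Mf τ * Real.exp (L * 5 - ε * L) * (2 * C1)
          ≤ Mf τ * Real.exp (L * 5 - ε * L) * Real.exp (ε * L) := by gcongr
        _ = E := by rw [hE, mul_assoc, ← Real.exp_add]; congr 2; ring
    have h9 : E / C1 ≤ ‖Ph τ (I * 5 + x0)‖ := by
      rw [div_le_iff₀ (by positivity), hE, mul_comm _ C1]
      exact h1
    have h10 : E / C1 = E / (2 * C1) + E / (2 * C1) := by field_simp; ring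
    linarith
  -- zero-free
  have hnz : ∀ w : ℂ, 0 < w.re → ‖w‖ ≤ 11 → iteratedDeriv (n + 1) G w ≠ 0 := by
    intro w hw _ h0
    have hGe : G = fun w => PD D FF ((((-(τ ^ 2) : ℝ) : ℂ) + 2 * τ * x0) + (2 * τ * I) * w) := by
      funext w
      simp only [hG]
      congr 1
      ring
    rw [hGe, iter_aff (PD_diff D FF), ← hn] at h0
    have hτc : (τ : ℂ) ≠ 0 := by exact_mod_cast hτ0.ne'
    have h1 : (2 * τ * I : ℂ) ^ m ≠ 0 := pow_ne_zero _ (mul_ne_zero (mul_ne_zero two_ne_zero hτc) I_ne_zero)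
    rcases mul_eq_zero.1 h0 with h2 | h2
    · exact h1 h2
    rw [c3 hmD hD1'] at h2
    rcases mul_eq_zero.1 h2 with h3 | h3
    · have h4 : (0 : ℝ) < D.factorial / ((D - m).factorial * D ^ m) := by
        have : (0 : ℝ) < D := by exact_mod_cast hD1'
        positivity
      exact h4.ne' (by exact_mod_cast h3)
    · have h4 := H (D - m) m hN0m hdeg _ h3
      have hDr : (0 : ℝ) < D := by exact_mod_cast hD1'
      have e1 : ((((-(τ ^ 2) : ℝ) : ℂ) + 2 * τ * x0) + (2 * τ * I) * w) / (D : ℂ) =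
          ((1 / D : ℝ) : ℂ) * (((-(τ ^ 2) + 2 * τ * x0 : ℝ) : ℂ) + ((2 * τ : ℝ) : ℂ) * (I * w)) := by
        push_cast
        field_simp
      have e2 : (((-(τ ^ 2) + 2 * τ * x0 : ℝ) : ℂ) + ((2 * τ : ℝ) : ℂ) * (I * w)).im = 2 * τ * w.re := by
        rw [add_im, Complex.ofReal_im, Complex.im_ofReal_mul]
        simp
      rw [e1, Complex.im_ofReal_mul, e2] at h4
      have h6 : 0 < 1 / (D : ℝ) * (2 * τ * w.re) := by positivity
      exact h6.ne' h4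
  -- the end
  have hend := HC G (Mf τ) L b n hGd hM l1 (by
      have : (m : ℝ) = n + 1 := by rw [hn]; push_cast; ring
      linarith) (by
      have : (m : ℝ) = n + 1 := by rw [hn]; push_cast; ring
      linarith) (by linarith) hb2'.2.le hU1 hU2 h5 hnz
  have hPh0 : Ph τ (I * b + x0) = 0 := by
    unfold Ph
    rw [← hfx]
    apply FF_eq
    rw [hw0eq, hx0]
    have hτc : (τ : ℂ) ≠ 0 := by exact_mod_cast hτ0.ne'
    push_cast
    field_simp
    ring_nf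
    rw [I_sq]
    ring
  have hbn : ‖(b : ℂ)‖ ≤ 12 := by
    rw [Complex.norm_real, Real.norm_eq_abs]
    linarith
  have hGb := hcmp b hbn
  rw [hPh0, sub_zero, Complex.ofReal_re, max_eq_right hb2.le] at hGb
  have h11 := hend.trans hGb
  rw [mul_le_mul_iff_right₀ hM, Real.exp_le_exp] at h11
  have h12 : L * (1 / 2 - g * s / 16) ≤ L * b := by gcongr
  have h13 : g * s * L ≤ 1 * (η / 4) * L := by gcongr
  have h14 : 0 < η * L := by positivity
  linarith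

end Pool.Agent.Helper75.JE
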