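import Pool.Agent.Helper85.DQ.Tay
import Pool.Agent.Helper85.DQ.Tra
import Pool.Agent.Helper85.DQ.Vert

set_option autoImplicit false
set_option maxHeartbeats 4000000

open Complex Filter Topology Metric MeasureTheory Set

namespace Pool.Agent.Helper75.JE

open Pool.Agent.Helper85.DQ

/-- statement of the horizontal saddle point lemma -/
def SaddleLow : Prop := ∀ {ρ1 ρ2 q : ℝ}, 0 < ρ1 → ρ1 ≤ ρ2 → 0 < q →
    ∃ η0 > 0, ∃ L0 : ℝ, 1 ≤ L0 ∧ ∀ (h : ℂ → ℂ) (b : ℂ) (a0 L ρ η : ℝ) (κ : ℕ),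
      Differentiable ℂ h → 0 < η → η ≤ η0 → L0 ≤ L → ρ1 ≤ ρ → ρ ≤ ρ2 → (κ : ℝ) = ρ * L →
      a0 + q ≤ b.re - ρ → b.re - a0 ≤ ρ2 + 1 →
      (∀ u : ℂ, a0 ≤ u.re → u.re ≤ b.re → |u.im - b.im| ≤ q →
        h u ≠ 0 ∧ ‖logDeriv h u - L‖ ≤ η * L) →
      ∃ z0 : ℂ, ‖z0 - ρ‖ ≤ 2 * ρ * η ∧ ∀ S : ℝ, S * z0.re = b.re - a0 →
        ‖h (b - z0)‖ / (2 * Real.sqrt κ) ≤ ‖∫ s in (0 : ℝ)..S, h (b - z0 * s) * (s : ℂ) ^ κ‖

lemma one_sub_ge {x : ℝ} (h0 : 0 ≤ x) (h1 : x ≤ 1 / 2) : Real.exp (-(2 * x)) ≤ 1 - x := by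
  rw [Real.exp_neg, inv_le_comm₀ (Real.exp_pos _) (by linarith)]
  have := Real.add_one_le_exp (2 * x)
  refine le_trans ?_ this
  rw [inv_le_comm₀ (by linarith) (by linarith)]
  rw [inv_le_iff_one_le_mul₀ (by linarith)]
  nlinarith

lemma lin_exp {η a : ℝ} (hη : 0 < η) (ha : 0 < a) : ∃ L1 : ℝ, ∀ L : ℝ, L1 ≤ L →
    a * L ≤ Real.exp (η * L) := by
  refine ⟨2 * a / η ^ 2, fun L hL => ?_⟩
  have hL0 : 0 ≤ L := le_trans (by positivity) hL
  have h1 := Real.quadratic_le_exp_of_nonneg (x := η * L) (by positivity)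
  rw [div_le_iff₀ (by positivity)] at hL
  nlinarith [mul_nonneg hη.le hL0]

lemma pow_ratio {n : ℕ} (hn : 1 ≤ n) : (1 / 8 : ℝ) ≤ ((n : ℝ) / (n + 1)) ^ (n + 1) := by
  have hn' : (1 : ℝ) ≤ n := by exact_mod_cast hn
  have h1 : ((n : ℝ) + 1) / n ≤ Real.exp (1 / n) := by
    have := Real.add_one_le_exp (1 / (n : ℝ))
    have h2 : ((n : ℝ) + 1) / n = 1 / n + 1 := by field_simp; ring
    linarith
  have h2 : (((n : ℝ) + 1) / n) ^ (n + 1) ≤ 8 := by
    calc (((n : ℝ) + 1) / n) ^ (n + 1) ≤ (Real.exp (1 / n)) ^ (n + 1) := by gcongr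
      _ = Real.exp ((n + 1 : ℕ) * (1 / n)) := by rw [← Real.exp_nat_mul]
      _ ≤ Real.exp 2 := by
          apply Real.exp_le_exp.2
          push_cast
          rw [mul_one_div, div_le_iff₀ (by linarith)]
          linarith
      _ = Real.exp 1 * Real.exp 1 := by rw [← Real.exp_add]; norm_num
      _ ≤ 2.72 * 2.72 := by
          have := Real.exp_one_lt_d9
          have h0 := Real.exp_pos 1
          gcongr <;> linarith
      _ ≤ 8 := by norm_num
  have h3 : ((n : ℝ) / (n + 1)) ^ (n + 1) = ((((n : ℝ) + 1) / n) ^ (n + 1))⁻¹ := by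
    rw [← inv_pow, inv_div]
  rw [h3, one_div]
  exact inv_anti₀ (by positivity) h2

lemma ar1 {δ η : ℝ} (h1 : 0 < δ) (h2 : 0 < η) (h3 : η ≤ 1 / 1000) :
    (1 / 2 - δ) * (1 + 5 * η) ≤ 1 := by nlinarith

lemma ar2 {η : ℝ} (h2 : 0 < η) (h3 : η ≤ 1 / 1000) : (1 + 2 * η) ≤ (1 - 2 * η) * (1 + 5 * η) := by
  nlinarith

lemma ar3 {g r : ℝ} (h0 : 0 < g) (h1 : g ≤ 1) (h : 1 / 2 - 3 * g / 16 ≤ r) :
    (1 - g) / 2 ≤ (1 - g / 2) * r := by nlinarith

lemma ar4 {n : ℝ} (h0 : 0 ≤ n) : 2 * Real.sqrt n ≤ n + 1 := by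
  have := Real.sq_sqrt h0
  nlinarith [sq_nonneg (Real.sqrt n - 1)]

lemma ar5 {u δ : ℝ} {w : ℂ} (hδ : 0 < δ) (hδ1 : δ ≤ 1) (hu : 4 ≤ u) (hw1 : δ ≤ w.re)
    (hw2 : w.re ≤ u) (hw3 : |w.im| ≤ δ) : ‖w - u‖ ≤ u - δ / 2 := by
  apply le_of_sq_le_sq _ (by linarith)
  rw [← Complex.normSq_eq_norm_sq, Complex.normSq_apply, sub_re, sub_im, Complex.ofReal_re,
    Complex.ofReal_im, sub_zero]
  have h3 : w.im * w.im ≤ δ * δ := by
    rw [← abs_mul_abs_self w.im]
    gcongr
  have h4 : (w.re - u) * (w.re - u) ≤ (u - δ) * (u - δ) := by nlinarith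
  nlinarith

theorem conv_abs (hSL : SaddleLow) {ρ1 ρ2 s : ℝ} (h1 : 0 < ρ1) (h12 : ρ1 ≤ ρ2) (h2 : ρ2 < 1 / 2)
    (hs : 0 < s) (hs1 : s ≤ (1 - 2 * ρ2) / 8) :
    ∃ ε > 0, ∃ L0 : ℝ, ∀ (G : ℂ → ℂ) (M L b : ℝ) (n : ℕ), Differentiable ℂ G → 0 < M → L0 ≤ L →
      ρ1 * L ≤ n + 1 → (n : ℝ) + 1 ≤ ρ2 * L → 1 / 2 - (1 - 2 * ρ2) * s / 16 ≤ b → b ≤ 1 / 2 →
      (∀ w : ℂ, ‖w‖ ≤ 12 → ‖G w‖ ≤ M * Real.exp (L * max |w.re| (1 / 2) + ε * L)) →
      (∀ w : ℂ, ‖w‖ ≤ 12 → |w.re| ≤ 1 / 2 - s →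
        ‖G w‖ ≤ M * Real.exp (L * (1 / 2 - s + (1 - 2 * ρ2) / 8 * s))) →
      M * Real.exp (L * 5 - ε * L) ≤ ‖G 5‖ →
      (∀ w : ℂ, 0 < w.re → ‖w‖ ≤ 11 → iteratedDeriv (n + 1) G w ≠ 0) →
      M * Real.exp (L * b - (1 - 2 * ρ2) * s / 16 * L) ≤ ‖G b‖ := by
  set g : ℝ := 1 - 2 * ρ2 with hg
  have hg0 : 0 < g := by rw [hg]; linarith
  have hρ20 : 0 < ρ2 := by linarith
  have hg1 : g ≤ 1 := by rw [hg]; linarith
  have hs8 : s ≤ 1 / 8 := by linarith
  set δ : ℝ := g / 16 with hδ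
  have hδ0 : 0 < δ := by positivity
  have hδ1 : δ ≤ 1 / 16 := by rw [hδ]; linarith
  obtain ⟨ηS, hηS, LS, hLS, HS⟩ := hSL (ρ1 := ρ1 / 2) (ρ2 := ρ2) (q := δ) (by positivity)
    (by linarith) hδ0
  set η : ℝ := min (g * s / 400) ηS with hηdef
  have hη0 : 0 < η := lt_min (by positivity) hηS
  have hη1 : η ≤ g * s / 400 := min_le_left _ _
  have hη2 : η ≤ ηS := min_le_right _ _
  have hgs : g * s ≤ 1 / 8 := by nlinarith
  have hη3 : η ≤ 1 / 1000 := by linarith
  obtain ⟨ηT, hηT, HT⟩ := transport (δ := δ) (C := 13) (η := η) hδ0 (by linarith) (by norm_num) hη0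
  set η1 : ℝ := min η (ηT / 2) with hη1def
  have hη10 : 0 < η1 := lt_min hη0 (by positivity)
  have hη1a : η1 ≤ η := min_le_left _ _
  have hη1b : η1 ≤ ηT / 2 := min_le_right _ _
  obtain ⟨εP, hεP, LP, hLP, HP⟩ := one_pt h1 h12 (by linarith : ρ2 < 1) hη10
  set ε : ℝ := min (min εP (ηT / 2)) η with hεdef
  have hε0 : 0 < ε := lt_min (lt_min hεP (by positivity)) hη0
  have hεa : ε ≤ εP := (min_le_left _ _).trans (min_le_left _ _)
  have hεb : ε ≤ ηT / 2 := (min_le_left _ _).trans (min_le_right _ _)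
  have hεc : ε ≤ η := min_le_right _ _
  obtain ⟨L1, hL1⟩ := lin_exp hη0 hρ20
  obtain ⟨L2, hL2⟩ := lin_exp hη0 (show (0 : ℝ) < 8 by norm_num)
  refine ⟨ε, hε0, max (max LS LP) (max (max L1 L2) (max 1 (4 / ρ1))), ?_⟩
  intro G M L b n hG hM hL hn1 hn2 hb1 hb2 hU1 hU2 hLo hZ
  simp only [max_le_iff] at hL
  obtain ⟨⟨a1, a2⟩, ⟨a3, a4⟩, a5, a6⟩ := hL
  have hL0 : 0 < L := by linarith
  have e1 : ρ2 * L ≤ Real.exp (η * L) := hL1 L a3
  have e2 : 8 ≤ Real.exp (η * L) := by have := hL2 L a4; linarith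
  have hρ1L : 4 ≤ ρ1 * L := by
    rw [div_le_iff₀ h1] at a6; linarith
  have hn3 : 1 ≤ n := by
    have : (3 : ℝ) ≤ n := by linarith
    have : 3 ≤ n := by exact_mod_cast this
    omega
  have hnr : (3 : ℝ) ≤ n := by linarith
  -- the two ratios
  set ρ : ℝ := (n + 1) / L with hρ
  have hρL : ρ * L = n + 1 := by rw [hρ]; field_simp
  have hρa : ρ1 ≤ ρ := by rw [hρ, le_div_iff₀ hL0]; exact hn1
  have hρb : ρ ≤ ρ2 := by rw [hρ, div_le_iff₀ hL0]; exact hn2
  have hρ0 : 0 < ρ := by linarith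
  have hρ1' : ρ ≤ 1 / 2 := by linarith
  set ρ' : ℝ := n / L with hρ'
  have hρ'L : (n : ℝ) = ρ' * L := by rw [hρ']; field_simp
  have hρ'a : ρ1 / 2 ≤ ρ' := by
    rw [hρ', le_div_iff₀ hL0]
    linarith
  have hρ'b : ρ' ≤ ρ := by rw [hρ', hρ]; gcongr; linarith
  have hρ'0 : 0 < ρ' := by linarith
  have hρ'ρ : ρ' = ρ * (n / (n + 1)) := by
    rw [hρ', hρ]; field_simp
  -- the derivative
  have hfac : (0 : ℝ) < (n + 1).factorial := by exact_mod_cast (n + 1).factorial_pos
  have hfacC : ((n + 1).factorial : ℂ) ≠ 0 := by exact_mod_cast (n + 1).factorial_ne_zero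
  set h : ℂ → ℂ := fun w => iteratedDeriv (n + 1) G w / ((n + 1).factorial : ℂ) with hh
  have hhd : Differentiable ℂ h := fun w => (iter_diff hG (n + 1) w).div_const _
  have hcau : ∀ (w : ℂ) (A : ℝ), (∀ z ∈ sphere w ρ, ‖G z‖ ≤ A) → ‖h w‖ ≤ A / ρ ^ (n + 1) := by
    intro w A hA
    have := norm_iteratedDeriv_le_of_forall_mem_sphere_norm_le (n + 1) hρ0 hG.diffContOnCl hA
    rw [hh]
    simp only
    rw [norm_div, Complex.norm_natCast, div_le_iff₀ hfac]
    refine this.trans (le_of_eq ?_)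
    ring
  have hρp : 0 < ρ ^ (n + 1) := by positivity
  -- the point with the lower bound
  obtain ⟨u, hu1, hu2, hu3⟩ := HP G M L ρ 4 0 n hG hM a2 hρa hρb (by push_cast; linarith)
    (fun w hw1 hw2 hw3 => by
      rw [sub_zero] at hw3
      have hn : ‖w‖ ≤ 12 := by
        refine (Complex.norm_le_abs_re_add_abs_im w).trans ?_
        rw [abs_of_nonneg (by linarith)]
        linarith
      refine (hU1 w hn).trans ?_
      rw [abs_of_nonneg (by linarith), max_eq_left (by linarith)]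
      gcongr)
    (by
      have e3 : (((4 : ℝ) + 1 : ℝ) : ℂ) + ((0 : ℝ) : ℂ) * I = 5 := by push_cast; ring
      rw [e3]
      refine le_trans ?_ hLo
      have : L * (4 + 1) - εP * L ≤ L * 5 - ε * L := by
        have := mul_le_mul_of_nonneg_right hεa hL0.le
        linarith
      gcongr)
  have e4 : (u : ℂ) + ((0 : ℝ) : ℂ) * I = (u : ℂ) := by simp
  rw [e4] at hu3
  have hhc : M * Real.exp (L * (u + ρ) - η1 * L) / ρ ^ (n + 1) ≤ ‖h (u : ℂ)‖ := hu3
  have hcre : ((u : ℝ) : ℂ).re = u := Complex.ofReal_re u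
  -- transport
  have hreg := HT h (u : ℂ) L hL0 hhd (by rw [hcre]; exact hu1) (by rw [hcre]; linarith)
    (by
      intro w hw
      rw [hcre] at hw
      have hre : 0 < w.re := by
        have := (abs_lt.1 (lt_of_le_of_lt (Complex.abs_re_le_norm (w - u)) hw)).1
        rw [sub_re, hcre] at this
        linarith
      have hn : ‖w‖ ≤ 11 := by
        have := norm_add_le (w - u) (u : ℂ)
        rw [sub_add_cancel, Complex.norm_real, Real.norm_of_nonneg (by linarith)] at this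
        linarith
      exact div_ne_zero (hZ w hre hn) hfacC)
    (by
      intro w hw
      rw [hcre] at hw
      have hn : ‖w‖ ≤ 11 := by
        have := norm_add_le (w - u) (u : ℂ)
        rw [sub_add_cancel, Complex.norm_real, Real.norm_of_nonneg (by linarith)] at this
        linarith
      refine (hcau w (M * Real.exp (13 * L)) ?_).trans ?_
      · intro z hz
        rw [mem_sphere_iff_norm] at hz
        have hzn : ‖z‖ ≤ 12 := by
          have := norm_add_le (z - w) w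
          rw [sub_add_cancel] at this
          linarith
        refine (hU1 z hzn).trans ?_
        have h3 : max |z.re| (1 / 2) ≤ 12 := max_le ((Complex.abs_re_le_norm z).trans hzn) (by norm_num)
        have : L * max |z.re| (1 / 2) + ε * L ≤ 13 * L := by
          have h4 := mul_le_mul_of_nonneg_left h3 hL0.le
          have h5 : ε * L ≤ 1 * L := mul_le_mul_of_nonneg_right (by linarith) hL0.le
          linarith
        gcongr
      · have h3 : M / ρ ^ (n + 1) ≤ ‖h (u : ℂ)‖ := by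
          refine le_trans ?_ hhc
          have : 1 ≤ Real.exp (L * (u + ρ) - η1 * L) := by
            apply Real.one_le_exp
            have : 0 ≤ L * (u + ρ - η1) := mul_nonneg hL0.le (by linarith)
            linarith
          gcongr
          exact le_mul_of_one_le_right hM.le this
        calc M * Real.exp (13 * L) / ρ ^ (n + 1) = M / ρ ^ (n + 1) * Real.exp (13 * L) := by ring
          _ ≤ ‖h (u : ℂ)‖ * Real.exp (13 * L) := by gcongr)
    (by
      intro w hw
      rw [hcre]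
      have hre : 2 < w.re ∧ w.re < u + 2 := by
        have := abs_lt.1 (lt_of_le_of_lt (Complex.abs_re_le_norm (w - u)) hw)
        rw [sub_re, hcre] at this
        constructor <;> linarith [this.1, this.2]
      have hn : ‖w‖ ≤ 11 := by
        have := norm_add_le (w - u) (u : ℂ)
        rw [sub_add_cancel, Complex.norm_real, Real.norm_of_nonneg (by linarith)] at this
        linarith
      refine (hcau w (M * Real.exp (L * (w.re + ρ) + ε * L)) ?_).trans ?_
      · intro z hz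
        rw [mem_sphere_iff_norm] at hz
        have hzn : ‖z‖ ≤ 12 := by
          have := norm_add_le (z - w) w
          rw [sub_add_cancel] at this
          linarith
        have hzr := abs_le.1 ((Complex.abs_re_le_norm (z - w)).trans hz.le)
        rw [sub_re] at hzr
        refine (hU1 z hzn).trans ?_
        rw [abs_of_nonneg (by linarith [hzr.1, hre.1]), max_eq_left (by linarith [hzr.1, hre.1])]
        have : z.re ≤ w.re + ρ := by linarith [hzr.2]
        gcongr
      · have e5 : Real.exp (L * (w.re + ρ) + ε * L) = Real.exp (L * (u + ρ) - η1 * L) *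
            Real.exp (L * (w.re - u) + (ε + η1) * L) := by
          rw [← Real.exp_add]; congr 1; ring
        calc M * Real.exp (L * (w.re + ρ) + ε * L) / ρ ^ (n + 1)
            = M * Real.exp (L * (u + ρ) - η1 * L) / ρ ^ (n + 1) *
                Real.exp (L * (w.re - u) + (ε + η1) * L) := by
              rw [e5]; ring
          _ ≤ ‖h (u : ℂ)‖ * Real.exp (L * (w.re - u) + ηT * L) := by
              have : (ε + η1) * L ≤ ηT * L := by
                gcongr
                linarith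
              gcongr)
  rw [hcre] at hreg
  have hrect : ∀ w : ℂ, δ ≤ w.re → w.re ≤ u → |w.im| ≤ δ → ‖w - u‖ ≤ u - δ / 2 :=
    fun w hw1 hw2 hw3 => ar5 hδ0 (by linarith) hu1 hw1 hw2 hw3
  -- the saddle point
  have hbρ : 2 * δ ≤ b - ρ' := by
    have h3 : g * s ≤ g * (1 / 8) := mul_le_mul_of_nonneg_left hs8 hg0.le
    have h4 : ρ2 = (1 - g) / 2 := by rw [hg]; ring
    rw [hδ]
    linarith
  obtain ⟨z0, hz0, hsad⟩ := HS h (b : ℂ) δ L ρ' η n hhd hη0 hη2 a1 hρ'a (by linarith) hρ'L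
    (by rw [Complex.ofReal_re]; linarith) (by rw [Complex.ofReal_re]; linarith)
    (by
      intro w hw1 hw2 hw3
      rw [Complex.ofReal_re] at hw2
      rw [Complex.ofReal_im, sub_zero] at hw3
      have hw4 := hrect w hw1 (by linarith) hw3
      refine ⟨?_, (hreg w hw4).1⟩
      have hre : 0 < w.re := by linarith
      have hn : ‖w‖ ≤ 11 := by
        have := norm_add_le (w - u) (u : ℂ)
        rw [sub_add_cancel, Complex.norm_real, Real.norm_of_nonneg (by linarith)] at this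
        linarith
      exact div_ne_zero (hZ w hre hn) hfacC)
  have hz0re := abs_le.1 ((Complex.abs_re_le_norm (z0 - ρ')).trans hz0)
  have hz0im := (Complex.abs_im_le_norm (z0 - ρ')).trans hz0
  rw [sub_re, Complex.ofReal_re] at hz0re
  rw [sub_im, Complex.ofReal_im, sub_zero] at hz0im
  have hzr1 : ρ' * (1 - 2 * η) ≤ z0.re := by linarith [hz0re.1]
  have hzr2 : z0.re ≤ ρ' * (1 + 2 * η) := by linarith [hz0re.2]
  have hzrpos : 0 < z0.re := lt_of_lt_of_le (mul_pos hρ'0 (by linarith)) hzr1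
  have hzn1 : ρ' * (1 - 2 * η) ≤ ‖z0‖ := hzr1.trans (Complex.re_le_norm z0)
  have hzn2 : ‖z0‖ ≤ ρ' * (1 + 2 * η) := by
    have := norm_add_le (z0 - ρ') (ρ' : ℂ)
    rw [sub_add_cancel, Complex.norm_real, Real.norm_of_nonneg hρ'0.le] at this
    linarith
  have hzq : ‖z0‖ ≤ z0.re * (1 + 5 * η) := by
    refine hzn2.trans ?_
    have h3 := ar2 hη0 hη3
    calc ρ' * (1 + 2 * η) ≤ ρ' * ((1 - 2 * η) * (1 + 5 * η)) := by gcongr
      _ = ρ' * (1 - 2 * η) * (1 + 5 * η) := by ring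
      _ ≤ z0.re * (1 + 5 * η) := by gcongr
  set S : ℝ := (b - δ) / z0.re with hS
  have hSz : S * z0.re = b - δ := by rw [hS]; field_simp
  have hbδ : 0 < b - δ := by linarith
  have hS0 : 0 ≤ S := by rw [hS]; positivity
  have hint := hsad S (by rw [Complex.ofReal_re]; exact hSz)
  have htay := taylor_seg hG (b : ℂ) z0 n S
  -- the head
  set r : ℝ := 1 / 2 - s - δ with hr
  have hr0 : 0 < r := by rw [hr]; linarith
  have hSn : S * ‖z0‖ ≤ (1 / 2 - δ) * (1 + 5 * η) := by
    calc S * ‖z0‖ ≤ S * (z0.re * (1 + 5 * η)) := by gcongr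
      _ = (b - δ) * (1 + 5 * η) := by rw [← hSz]; ring
      _ ≤ _ := by gcongr
  have hare : ((b : ℂ) - S * z0).re = δ := by
    rw [sub_re, Complex.ofReal_re, Complex.re_ofReal_mul]
    linarith
  have hhead := RT_le (F := G) (b := (b : ℂ)) (ζ := z0) (m := n + 1) (S := S) (r := r)
    (M := M * Real.exp (L * (1 / 2 - s + g / 8 * s))) hG hr0 (by positivity) hS0
    (by
      have : S * z0.re ≤ S * ‖z0‖ := by gcongr; exact Complex.re_le_norm z0
      have h3 : g * s ≤ 1 * s := mul_le_mul_of_nonneg_right hg1 hs.le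
      rw [hr]
      linarith)
    (by
      intro z hz
      rw [mem_sphere_iff_norm] at hz
      have hzr := abs_le.1 ((Complex.abs_re_le_norm _).trans hz.le)
      rw [sub_re, hare] at hzr
      refine hU2 z ?_ ?_
      · have h3 := norm_add_le (z - ((b : ℂ) - S * z0)) ((b : ℂ) - S * z0)
        rw [sub_add_cancel] at h3
        have h4 := norm_sub_le (b : ℂ) (S * z0)
        rw [norm_mul, Complex.norm_real, Complex.norm_real, Real.norm_of_nonneg hS0,
          Real.norm_of_nonneg (by linarith)] at h4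
        have h5 := ar1 hδ0 hη0 hη3
        linarith
      · rw [abs_le]
        constructor
        · linarith [hzr.1]
        · linarith [hzr.2])
  have hq : S * ‖z0‖ / r ≤ Real.exp (s / r + 5 * η) := by
    rw [Real.exp_add, div_le_iff₀ hr0]
    have h3 := Real.add_one_le_exp (s / r)
    have h4 := Real.add_one_le_exp (5 * η)
    have h5 : (s / r + 1) * r = 1 / 2 - δ := by
      rw [add_mul, div_mul_cancel₀ _ hr0.ne', hr]; ring
    calc S * ‖z0‖ ≤ (1 / 2 - δ) * (1 + 5 * η) := hSn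
      _ = (s / r + 1) * (5 * η + 1) * r := by rw [← h5]; ring
      _ ≤ Real.exp (s / r) * Real.exp (5 * η) * r := by gcongr
  have hρ2r : ρ2 ≤ (1 - g / 2) * r := by
    have h4 : ρ2 = (1 - g) / 2 := by rw [hg]; ring
    have h5 : 1 / 2 - 3 * g / 16 ≤ r := by rw [hr, hδ]; linarith
    rw [h4]
    exact ar3 hg0 hg1 h5
  have hhead2 : ‖RT G (b : ℂ) z0 (n + 1) S‖ ≤
      M * Real.exp (L * (1 / 2 - 3 / 8 * (g * s)) + 4 * η * L) := by
    refine hhead.trans ?_
    have hqp : 0 ≤ S * ‖z0‖ / r := by positivity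
    have h3 : (S * ‖z0‖ / r) ^ (n + 1) ≤ Real.exp (L * ((1 - g / 2) * s) + 5 / 2 * η * L) := by
      calc (S * ‖z0‖ / r) ^ (n + 1) ≤ (Real.exp (s / r + 5 * η)) ^ (n + 1) := by gcongr
        _ = Real.exp ((n + 1 : ℕ) * (s / r + 5 * η)) := by rw [← Real.exp_nat_mul]
        _ ≤ _ := by
            apply Real.exp_le_exp.2
            push_cast
            have h4 : ((n : ℝ) + 1) * (s / r) ≤ L * ((1 - g / 2) * s) := by
              rw [mul_div_assoc', div_le_iff₀ hr0]
              calc ((n : ℝ) + 1) * s ≤ (ρ2 * L) * s := by gcongr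
                _ ≤ ((1 - g / 2) * r) * L * s := by gcongr
                _ = L * ((1 - g / 2) * s) * r := by ring
            have h5 : ((n : ℝ) + 1) * (5 * η) ≤ 5 / 2 * η * L := by
              calc ((n : ℝ) + 1) * (5 * η) ≤ (1 / 2 * L) * (5 * η) := by
                    gcongr
                    linarith [mul_le_mul_of_nonneg_right h2.le hL0.le]
                _ = _ := by ring
            linarith
    have h4 : (((n + 1 : ℕ) : ℝ)) ≤ Real.exp (η * L) := by
      push_cast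
      linarith
    calc ((n + 1 : ℕ) : ℝ) * (M * Real.exp (L * (1 / 2 - s + g / 8 * s)) * (S * ‖z0‖ / r) ^ (n + 1))
        ≤ Real.exp (η * L) * (M * Real.exp (L * (1 / 2 - s + g / 8 * s)) *
            Real.exp (L * ((1 - g / 2) * s) + 5 / 2 * η * L)) := by gcongr
      _ = M * (Real.exp (η * L) * Real.exp (L * (1 / 2 - s + g / 8 * s)) *
            Real.exp (L * ((1 - g / 2) * s) + 5 / 2 * η * L)) := by ring
      _ = M * Real.exp (η * L + L * (1 / 2 - s + g / 8 * s) +
            (L * ((1 - g / 2) * s) + 5 / 2 * η * L)) := by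
          rw [Real.exp_add (η * L + L * (1 / 2 - s + g / 8 * s)),
            Real.exp_add (η * L)]
      _ ≤ _ := by
          refine mul_le_mul_of_nonneg_left (Real.exp_le_exp.2 ?_) hM.le
          have := mul_pos hη0 hL0
          linarith
  -- the value at the saddle
  have hval : M * Real.exp (L * b - 3 * η * L) / ρ ^ (n + 1) ≤ ‖h ((b : ℂ) - z0)‖ := by
    have hρη : ρ' * η ≤ 1 / 2 * η := mul_le_mul_of_nonneg_right (by linarith) hη0.le
    have hηδ : η ≤ δ := by
      have h3 : g * s ≤ g * (1 / 8) := mul_le_mul_of_nonneg_left hs8 hg0.le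
      rw [hδ]
      linarith
    have hw := (hreg ((b : ℂ) - z0) (hrect _ (by
        rw [sub_re, Complex.ofReal_re]
        linarith) (by
        rw [sub_re, Complex.ofReal_re]
        linarith) (by
        rw [sub_im, Complex.ofReal_im, zero_sub, abs_neg]
        refine hz0im.trans ?_
        linarith))).2
    rw [sub_re, Complex.ofReal_re] at hw
    refine le_trans ?_ hw
    calc M * Real.exp (L * b - 3 * η * L) / ρ ^ (n + 1)
        ≤ M * Real.exp ((L * (u + ρ) - η1 * L) + (L * (b - z0.re - u) - η * L)) / ρ ^ (n + 1) := by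
          have h3 : z0.re ≤ ρ + η := by linarith
          have h4 : L * z0.re ≤ L * (ρ + η) := by gcongr
          have h5 : η1 * L ≤ η * L := by gcongr
          have : L * b - 3 * η * L ≤ (L * (u + ρ) - η1 * L) + (L * (b - z0.re - u) - η * L) := by
            linarith
          gcongr
      _ = M * Real.exp (L * (u + ρ) - η1 * L) / ρ ^ (n + 1) *
            Real.exp (L * (b - z0.re - u) - η * L) := by
          rw [Real.exp_add]; ring
      _ ≤ _ := by gcongr
  -- the power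
  have hpow : Real.exp (-(3 * η * L)) * ρ ^ (n + 1) ≤ ‖z0‖ ^ (n + 1) := by
    have h3 : (1 - 2 * η) * (n / (n + 1)) * ρ ≤ ‖z0‖ := by
      refine le_trans (le_of_eq ?_) hzn1
      rw [hρ'ρ]; ring
    have h4 : 0 ≤ 1 - 2 * η := by linarith
    calc Real.exp (-(3 * η * L)) * ρ ^ (n + 1)
        = Real.exp (-(2 * η * L)) * Real.exp (-(η * L)) * ρ ^ (n + 1) := by
          rw [← Real.exp_add]; congr 2; ring
      _ ≤ (1 - 2 * η) ^ (n + 1) * ((n : ℝ) / (n + 1)) ^ (n + 1) * ρ ^ (n + 1) := by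
          have h5 : Real.exp (-(2 * η * L)) ≤ (1 - 2 * η) ^ (n + 1) := by
            have h6 := one_sub_ge (x := 2 * η) (by linarith) (by linarith)
            calc Real.exp (-(2 * η * L)) ≤ Real.exp ((n + 1 : ℕ) * (-(2 * (2 * η)))) := by
                  apply Real.exp_le_exp.2
                  push_cast
                  have h8 : (n : ℝ) + 1 ≤ 1 / 2 * L :=
                    hn2.trans (mul_le_mul_of_nonneg_right h2.le hL0.le)
                  have := mul_le_mul_of_nonneg_left h8 hη0.le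
                  linarith
              _ = (Real.exp (-(2 * (2 * η)))) ^ (n + 1) := by rw [← Real.exp_nat_mul]
              _ ≤ _ := by gcongr
          have h7 : Real.exp (-(η * L)) ≤ ((n : ℝ) / (n + 1)) ^ (n + 1) := by
            refine le_trans ?_ (pow_ratio hn3)
            rw [Real.exp_neg, inv_le_comm₀ (Real.exp_pos _) (by norm_num)]
            linarith
          gcongr
      _ = ((1 - 2 * η) * (n / (n + 1)) * ρ) ^ (n + 1) := by rw [mul_pow, mul_pow]
      _ ≤ _ := by gcongr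
  -- the remainder
  set Rm : ℂ := ((n + 1 : ℕ) : ℂ) * z0 ^ (n + 1) *
      ∫ s in (0 : ℝ)..S, (iteratedDeriv (n + 1) G (b - s * z0) / ((n + 1).factorial : ℂ)) *
        (s : ℂ) ^ n with hRm
  have hcongr : (∫ s in (0 : ℝ)..S, (iteratedDeriv (n + 1) G (b - s * z0) /
      ((n + 1).factorial : ℂ)) * (s : ℂ) ^ n) = ∫ s in (0 : ℝ)..S, h (b - z0 * s) * (s : ℂ) ^ n := by
    refine intervalIntegral.integral_congr fun x _ => ?_
    simp only [hh]
    rw [mul_comm z0]
  have hrem : M * Real.exp (L * b - 6 * η * L) ≤ ‖Rm‖ := by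
    rw [hRm, hcongr, norm_mul, norm_mul, norm_pow, Complex.norm_natCast]
    have hsn : 0 < Real.sqrt n := Real.sqrt_pos.2 (by linarith)
    have h3 : 2 * Real.sqrt n ≤ ((n + 1 : ℕ) : ℝ) := by
      push_cast
      exact ar4 (by linarith)
    calc M * Real.exp (L * b - 6 * η * L)
        = (Real.exp (-(3 * η * L)) * ρ ^ (n + 1)) *
            (M * Real.exp (L * b - 3 * η * L) / ρ ^ (n + 1)) := by
          have : Real.exp (L * b - 6 * η * L) =
              Real.exp (-(3 * η * L)) * Real.exp (L * b - 3 * η * L) := by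
            rw [← Real.exp_add]; congr 1; ring
          rw [this]
          field_simp
      _ ≤ ‖z0‖ ^ (n + 1) * ‖h ((b : ℂ) - z0)‖ := by gcongr
      _ = (2 * Real.sqrt n) * ‖z0‖ ^ (n + 1) * (‖h ((b : ℂ) - z0)‖ / (2 * Real.sqrt n)) := by
          field_simp
      _ ≤ ((n + 1 : ℕ) : ℝ) * ‖z0‖ ^ (n + 1) *
            ‖∫ s in (0 : ℝ)..S, h (b - z0 * s) * (s : ℂ) ^ n‖ := by gcongr
  -- conclusion
  have hcmp : M * Real.exp (L * (1 / 2 - 3 / 8 * (g * s)) + 4 * η * L) ≤
      1 / 2 * (M * Real.exp (L * b - 6 * η * L)) := by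
    have h3 : Real.exp (η * L) * Real.exp (L * (1 / 2 - 3 / 8 * (g * s)) + 4 * η * L) ≤
        Real.exp (L * b - 6 * η * L) := by
      rw [← Real.exp_add]
      apply Real.exp_le_exp.2
      have h4 : L * (1 / 2 - g * s / 16) ≤ L * b := by gcongr
      have h5 : η * L ≤ g * s / 400 * L := by gcongr
      have h6 : 0 < g * s * L := by positivity
      linarith
    have h7 := Real.exp_pos (L * (1 / 2 - 3 / 8 * (g * s)) + 4 * η * L)
    have h9 := mul_le_mul_of_nonneg_right e2 h7.le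
    have h8 : 2 * Real.exp (L * (1 / 2 - 3 / 8 * (g * s)) + 4 * η * L) ≤
        Real.exp (L * b - 6 * η * L) := by linarith
    have h10 := mul_le_mul_of_nonneg_left h8 hM.le
    linarith
  have hfin : 1 / 2 * (M * Real.exp (L * b - 6 * η * L)) ≤ ‖G b‖ := by
    have h3 : G b = RT G (b : ℂ) z0 (n + 1) S + Rm := htay
    have h4 : ‖Rm‖ ≤ ‖G b‖ + ‖RT G (b : ℂ) z0 (n + 1) S‖ := by
      have : Rm = G b - RT G (b : ℂ) z0 (n + 1) S := by rw [h3]; ring
      rw [this]
      exact norm_sub_le _ _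
    linarith
  refine le_trans ?_ hfin
  have h3 : 2 * Real.exp (L * b - g * s / 16 * L) ≤ Real.exp (L * b - 6 * η * L) := by
    have h4 : Real.exp (η * L) * Real.exp (L * b - g * s / 16 * L) ≤
        Real.exp (L * b - 6 * η * L) := by
      rw [← Real.exp_add]
      apply Real.exp_le_exp.2
      have h5 : η * L ≤ g * s / 400 * L := by gcongr
      have h6 : 0 < g * s * L := by positivity
      linarith
    have h7 := Real.exp_pos (L * b - g * s / 16 * L)
    have h9 := mul_le_mul_of_nonneg_right e2 h7.le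
    linarith
  have h10 := mul_le_mul_of_nonneg_left h3 hM.le
  linarith

end Pool.Agent.Helper75.JE
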