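import Pool.Agent.Helper75.JE.S1E
import Pool.Agent.Helper75.Jen.MainE
import Pool.Agent.Helper82.JE.Est

set_option autoImplicit false
set_option maxHeartbeats 1000000

open Complex Filter Topology Metric MeasureTheory

namespace Pool.Agent.Helper75.JE

open Pool.Agent.Helper75.Jen

/-- constants are subexponential -/
lemma const_small {C η : ℝ} (hC : 1 ≤ C) (hη : 0 < η) : ∃ τ1 : ℝ, 1 < τ1 ∧ ∀ τ : ℝ, τ1 ≤ τ →
    C ≤ Real.exp (η * Real.log τ) ∧ C ≤ η * Real.sqrt (Real.log τ) := by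
  refine ⟨Real.exp (C / η + (C / η) ^ 2), Real.one_lt_exp_iff.2 (by positivity), fun τ hτ => ?_⟩
  have hτ0 : 0 < τ := lt_of_lt_of_le (Real.exp_pos _) hτ
  have h1 : C / η + (C / η) ^ 2 ≤ Real.log τ := by rwa [Real.le_log_iff_exp_le hτ0]
  have hCη : 0 < C / η := by positivity
  constructor
  · have h2 : C ≤ η * Real.log τ := by
      have h3 : C / η ≤ Real.log τ := by nlinarith
      rw [div_le_iff₀ hη] at h3
      linarith
    have := Real.add_one_le_exp (η * Real.log τ)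
    linarith
  · have h2 : C / η ≤ Real.sqrt (Real.log τ) := by
      apply Real.le_sqrt_of_sq_le
      linarith
    rw [div_le_iff₀ hη] at h2
    linarith

lemma Loc.mono {b C C' D D' R L M : ℝ} {Φ : ℂ → ℂ} (h : Loc b C D R L M Φ) (hM : 0 < M)
    (hC : C ≤ C') (hD : D ≤ D') : Loc b C' D' R L M Φ := by
  refine ⟨fun ζ hζ => (h.up ζ hζ).trans ?_, fun ζ hζ hb => ?_⟩
  · gcongr
  · obtain ⟨h1, h2, h3⟩ := h.ri ζ hζ hb
    refine ⟨h1, h2.trans hD, h3.trans ?_⟩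
    gcongr

theorem est_unc {δ : ℝ} (hδ : 0 < δ) (hδ1 : δ ≤ 1 / 8) : Est (1 / 2 + δ) := by
  intro R η hR hη
  obtain ⟨C, τ0, hC, hτ0, H⟩ := Pool.Agent.Helper82.JE.est hδ hδ1 hR
  obtain ⟨τ1, hτ1, h1⟩ := const_small hC hη
  refine ⟨max τ0 τ1, fun τ hτ => ?_⟩
  obtain ⟨M, hM, ha, hb⟩ := H τ ((le_max_left _ _).trans hτ)
  obtain ⟨c1, c2⟩ := h1 τ ((le_max_right _ _).trans hτ)
  refine ⟨M, hM, ?_⟩
  have : Loc (1 / 2 + δ) C C R (Real.log τ) M (Ph τ) := ⟨ha, fun ζ hζ hz => hb ζ hζ hz⟩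
  exact this.mono hM c1 c2

end Pool.Agent.Helper75.JE
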