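import Pool.Agent.Helper75.JE.Half
import Pool.Agent.Helper75.JE.AsmG
import Pool.Agent.Helper75.JE.LocR
import Pool.Agent.Helper85.LG.Pos

set_option autoImplicit false
set_option maxHeartbeats 1000000

open Complex Filter Topology Metric MeasureTheory Set

namespace Pool.Agent.Helper75.JE

open Pool.Agent.Helper75.Jen

/-- hyperbolicity of the Jensen polynomials of degree at most `e^(cn)`, `n` large -/
def HypFF (c : ℝ) : Prop := ∃ N0 : ℕ, ∀ d n : ℕ, N0 ≤ n → (d : ℝ) ≤ Real.exp (c * n) →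
      ∀ z : ℂ, Jv d (fun j => iteratedDeriv (n + j) FF 0) z = 0 → z.im = 0

/-- all zeros at large heights have real part at most `θ` -/
def Few (θ : ℝ) : Prop := ∃ T : ℝ, ∀ s : ℂ, riemannZeta s = 0 → T ≤ |s.im| → s.re ≤ θ

/-- `ζ(s) = O(|t|^ε)` uniformly in `Re s ≥ σ`, for each `σ > θ` -/
def Gr (θ : ℝ) : Prop := ∀ σ > θ, ∀ ε > 0, ∃ C : ℝ, ∀ s : ℂ, σ ≤ s.re → 1 ≤ s.im →
  ‖riemannZeta s‖ ≤ C * s.im ^ (ε : ℝ)

lemma HypFF.mono {c c' : ℝ} (h : HypFF c) (hc : c' ≤ c) : HypFF c' := by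
  obtain ⟨N0, h⟩ := h
  refine ⟨N0, fun d n hn hd => h d n hn (hd.trans (Real.exp_le_exp.2 ?_))⟩
  gcongr

lemma Few.mono {θ θ' : ℝ} (h : Few θ) (hθ : θ ≤ θ') : Few θ' := by
  obtain ⟨T, h⟩ := h
  exact ⟨T, fun s hs hT => (h s hs hT).trans hθ⟩

lemma few_one : Few 1 := by
  refine ⟨0, fun s hs _ => ?_⟩
  by_contra h
  rw [not_le] at h
  exact riemannZeta_ne_zero_of_one_le_re h.le hs

/-- `Few θ` and a strip without zeros of `fx` -/
lemma few_of_strip {b T : ℝ} (hb : 0 < b) (h : ∀ w : ℂ, T ≤ w.im → b ≤ w.re → fx w ≠ 0) :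
    Few (1 / 2 + b) := by
  refine ⟨max T 1, fun s hs hT => ?_⟩
  by_contra hcon
  rw [not_le] at hcon
  have hT1 : T ≤ |s.im| := (le_max_left _ _).trans hT
  have hT2 : 1 ≤ |s.im| := (le_max_right _ _).trans hT
  set w : ℂ := s - 1 / 2 with hw
  have hwre : w.re = s.re - 1 / 2 := by
    rw [hw, sub_re]
    norm_num
  have hwim : w.im = s.im := by
    rw [hw, sub_im]
    norm_num
  have hfx : fx w = 0 := by
    rw [fx_eq (by rw [hwre]; linarith) (by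
      intro h
      have h1 : w.im = 0 := by rw [h]; norm_num
      rw [hwim] at h1
      rw [h1] at hT2
      norm_num at hT2)]
    rw [show (1 / 2 + w : ℂ) = s by rw [hw]; ring, hs, mul_zero]
  rcases le_or_gt 0 s.im with h0 | h0
  · rw [abs_of_nonneg h0] at hT1
    exact h w (by rw [hwim]; exact hT1) (by rw [hwre]; linarith) hfx
  · rw [abs_of_neg h0] at hT1
    refine h (starRingEnd ℂ w) (by rw [Complex.conj_im, hwim]; exact hT1)
      (by rw [Complex.conj_re, hwre]; linarith) ?_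
    rw [fx_conj, hfx, map_zero]

/-- under the growth bound, hyperbolicity up to `e^(cn)` excludes zeros to the right of `1/2 + 4/c` -/
theorem few_of_hyp {β : ℝ} (hβ : 0 ≤ β) (hβ1 : β ≤ 1 / 2) (hfx : FxGr β) {c : ℝ} (hc : 0 < c)
    (hβc : β ≤ 4 / c) (h : HypFF c) {ε : ℝ} (hε : 0 < ε) : Few (1 / 2 + (4 / c + ε)) := by
  obtain ⟨N0, h⟩ := h
  obtain ⟨T, hT⟩ := strip_gr saddleLow smooth_prop hβ hβ1 hfx hc hβc h hε
  exact few_of_strip (by positivity) hT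

/-- statements of the packages -/
def RegFew : Prop := ∀ {θ T0 y0 : ℝ}, (∀ s : ℂ, riemannZeta s = 0 → T0 ≤ |s.im| → s.re ≤ θ) →
  0 < y0 → θ - 1 / 2 < y0 → Pool.Agent.Helper85.LG.Reg y0

def PhDir : Prop := ∀ {y0 ρ1 ρ2 : ℝ}, 0 < y0 → Pool.Agent.Helper85.LG.Reg y0 → y0 < ρ1 → ρ1 ≤ ρ2 →
  LocReal ρ1 ρ2

def FxGrOf : Prop := ∀ {θ : ℝ}, 1 / 2 ≤ θ → Gr θ → FxGr (θ - 1 / 2)

def GrOfFew : Prop := ∀ {θ : ℝ}, 1 / 2 ≤ θ → (∀ ε > 0, Few (θ + ε)) → Gr θ

theorem hyp_of_few (h1 : RegFew) (h2 : PhDir) {θ c : ℝ} (hF : Few θ) (hc : c * (θ - 1 / 2) < 4) :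
    HypFF c := by
  set θ' : ℝ := min θ 1 with hθ'
  have hF' : Few θ' := by
    rcases min_choice θ 1 with h | h
    · rw [hθ', h]; exact hF
    · rw [hθ', h]; exact few_one
  set c' : ℝ := max c 1 with hc'
  have hc'1 : 1 ≤ c' := le_max_right _ _
  have hc'0 : 0 < c' := by linarith
  have hcθ : c' * (θ' - 1 / 2) < 4 := by
    rcases le_or_gt 1 c with h | h
    · rw [hc', max_eq_left h]
      have : θ' ≤ θ := min_le_left _ _
      nlinarith
    · rw [hc', max_eq_right h.le]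
      have : θ' ≤ 1 := min_le_right _ _
      linarith
  refine HypFF.mono ?_ (le_max_left c 1)
  rw [← hc']
  have h4c : 0 < 4 / c' := by positivity
  have hθc : θ' - 1 / 2 < 4 / c' := by rw [lt_div_iff₀ hc'0]; linarith
  obtain ⟨y0, hy1, hy2⟩ := exists_between (max_lt h4c hθc)
  obtain ⟨ρ1, hρ1, hρ2⟩ := exists_between hy2
  obtain ⟨hy3, hy4⟩ := max_lt_iff.1 hy1
  obtain ⟨T, hT⟩ := hF'
  have hloc := h2 hy3 (h1 hT hy3 hy4) hρ1 (le_max_left ρ1 4000)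
  exact hyp_of_loc hc'0 (by linarith) (by rw [lt_div_iff₀ hc'0] at hρ2; linarith)
    (le_max_right _ _) hloc

/-- the master theorem -/
theorem master (h1 : RegFew) (h2 : PhDir) (h3 : FxGrOf) (h4 : GrOfFew) {θ : ℝ} (hθ : 1 / 2 ≤ θ)
    (hθ1 : θ ≤ 1) :
    (∀ ε > 0, Few (θ + ε)) ↔ Gr θ ∧ ∀ c : ℝ, c * (θ - 1 / 2) < 4 → HypFF c := by
  constructor
  · intro h
    refine ⟨h4 hθ h, fun c hc => ?_⟩
    set ε : ℝ := (4 - c * (θ - 1 / 2)) / (2 * (|c| + 1)) with hε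
    have hc0 := abs_nonneg c
    have hε0 : 0 < ε := div_pos (by linarith) (by linarith)
    refine hyp_of_few h1 h2 (h ε hε0) ?_
    have h5 : c * ε ≤ (|c| + 1) * ε := by
      have := le_abs_self c
      nlinarith
    have h6 : (|c| + 1) * ε = (4 - c * (θ - 1 / 2)) / 2 := by
      rw [hε]; field_simp
    have h7 : c * (θ + ε - 1 / 2) = c * (θ - 1 / 2) + c * ε := by ring
    rw [h7]
    linarith
  · rintro ⟨hG, hH⟩ ε hε
    obtain ⟨β, hβ⟩ : ∃ β : ℝ, β = θ - 1 / 2 := ⟨_, rfl⟩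
    have hβ0 : 0 ≤ β := by linarith
    have hβ1 : β ≤ 1 / 2 := by linarith
    have hpos : 0 < β + ε / 2 := by linarith
    set c : ℝ := 4 / (β + ε / 2) with hc
    have hc0 : 0 < c := by positivity
    have h4c : 4 / c = β + ε / 2 := by rw [hc]; field_simp
    have hcβ : c * (θ - 1 / 2) < 4 := by
      rw [← hβ, hc, div_mul_eq_mul_div, div_lt_iff₀ hpos]
      linarith
    have := few_of_hyp hβ0 hβ1 (by rw [hβ]; exact h3 hθ hG) hc0 (by rw [h4c]; linarith) (hH c hcβ)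
      (half_pos hε)
    rw [h4c] at this
    refine this.mono ?_
    linarith

end Pool.Agent.Helper75.JE
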