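import Pool.Agent.Helper75.JE.EstU

set_option autoImplicit false
set_option maxHeartbeats 1000000

open Complex Filter Topology Metric MeasureTheory

namespace Pool.Agent.Helper75.JE

open Pool.Agent.Helper75.Jen

/-- hyperbolicity up to degree `e^(cn)` from the local estimates to the right of `b`, `c b < 4` -/
theorem hyp_of_est {b : ℝ} (hb : 1 / 4 ≤ b) (hest : Est b) {c : ℝ} (hc : 0 < c) (hcb : c * b < 4) :
    ∃ N0 : ℕ, ∀ d n : ℕ, N0 ≤ n → (d : ℝ) ≤ Real.exp (c * n) →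
      ∀ z : ℂ, Jv d (fun j => iteratedDeriv (n + j) FF 0) z = 0 → z.im = 0 := by
  obtain ⟨C, hC, hgr⟩ := FF_growth
  obtain ⟨P, hP1, hP2⟩ := approx FF_diff FF_conj FF_one FF_roots hC hgr
  have hconv : Conv FF P := ⟨FF_diff, hP1, hP2, FF_one, FF_np⟩
  -- a slightly larger constant
  obtain ⟨c', hc1, hc2⟩ : ∃ c' : ℝ, c < c' ∧ c' * b < 4 := by
    have hb0 : 0 < b := by linarith
    refine ⟨(c + 4 / b) / 2, ?_, ?_⟩
    · have : c < 4 / b := by rw [lt_div_iff₀ hb0]; exact hcb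
      linarith
    · have h1 : c < 4 / b := by rw [lt_div_iff₀ hb0]; exact hcb
      have h2 : 4 / b * b = 4 := by field_simp
      nlinarith
  obtain ⟨K, m0, hK, hS1⟩ := hS1_of_est hb hest (c := c') (by linarith) hc2
  obtain ⟨N0, hN0⟩ := main_exact hconv hC hgr (m0 := m0) hK (by linarith : 0 < c') hS1
  refine ⟨max N0 ⌈1 / (c' - c)⌉₊, fun d n hn hd z hz => hN0 d n ((le_max_left _ _).trans hn) ?_ z hz⟩
  have h1 : 1 / (c' - c) ≤ n :=
    (Nat.le_ceil _).trans (by exact_mod_cast (le_max_right _ _).trans hn)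
  rw [div_le_iff₀ (by linarith)] at h1
  have h2 : Real.exp (c' * n) = Real.exp (c * n) * Real.exp ((c' - c) * n) := by
    rw [← Real.exp_add]; congr 1; ring
  have h3 : (2 : ℝ) ≤ Real.exp ((c' - c) * n) := by
    have := Real.add_one_le_exp ((c' - c) * n)
    linarith
  have h4 : 1 ≤ Real.exp (c * n) := Real.one_le_exp (by positivity)
  rw [h2]
  nlinarith

/-- the unconditional theorem: every constant below 8 -/
theorem unc {c : ℝ} (hc : c < 8) :
    ∃ N0 : ℕ, ∀ d n : ℕ, N0 ≤ n → (d : ℝ) ≤ Real.exp (c * n) →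
      ∀ z : ℂ, Jv d (fun j => iteratedDeriv (n + j) FF 0) z = 0 → z.im = 0 := by
  set c1 : ℝ := max c 1 with hc1
  have hc18 : c1 < 8 := max_lt hc (by norm_num)
  have hc11 : 1 ≤ c1 := le_max_right _ _
  set δ : ℝ := (8 - c1) / 100 with hδ
  have hδ0 : 0 < δ := by rw [hδ]; linarith
  have hδ1 : δ ≤ 1 / 8 := by rw [hδ]; linarith
  obtain ⟨N0, h⟩ := hyp_of_est (b := 1 / 2 + δ) (by linarith) (est_unc hδ0 hδ1) (c := c1)
    (by linarith) (by rw [hδ]; nlinarith)
  refine ⟨N0, fun d n hn hd => h d n hn (hd.trans (Real.exp_le_exp.2 ?_))⟩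
  gcongr
  exact le_max_left _ _

end Pool.Agent.Helper75.JE
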