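import Pool.Agent.Helper75.JE.Asm
import Pool.Agent.Helper75.JE.Unc
import Pool.Agent.Helper4.Hor
import Pool.Agent.Helper68.Smooth
import Pool.Agent.Helper68.ZF.EstZf

set_option autoImplicit false
set_option maxHeartbeats 4000000

open Complex Filter Topology Metric MeasureTheory Set

namespace Pool.Agent.Helper75.JE

open Pool.Agent.Helper75.Jen

lemma saddleLow : SaddleLow := fun h1 h2 h3 => Pool.Agent.Helper85.DQ.saddle_low h1 h2 h3

lemma smooth_prop : Smooth := fun h1 h2 h3 h4 h5 =>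
  Pool.Agent.Helper68.Smooth.smooth Pool.Agent.Helper82.JE.growth_thm h1 h2 h3 h4 h5

/-- from a zero-free strip at large heights to a zero-free half-plane -/
theorem half_plane_of_strip {σ T : ℝ} (hσ : 0 < σ)
    (H : ∀ w : ℂ, T ≤ w.im → 1 / 2 - σ ≤ w.re → fx w ≠ 0) :
    ∃ θ : ℝ, θ < 1 ∧ ∀ s : ℂ, riemannZeta s = 0 → s.re ≤ θ := by
  set K : Set ℂ := {w : ℂ | 0 ≤ w.re ∧ w.re ≤ 1 / 2 ∧ |w.im| ≤ T ∧ fx w = 0} with hK
  have hKc : IsCompact K := by
    have hcl : IsClosed K := by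
      have e : K = {w : ℂ | 0 ≤ w.re} ∩ ({w : ℂ | w.re ≤ 1 / 2} ∩ ({w : ℂ | |w.im| ≤ T} ∩
          {w : ℂ | fx w = 0})) := by
        ext w
        simp [hK]
      rw [e]
      refine (isClosed_le continuous_const Complex.continuous_re).inter
        ((isClosed_le Complex.continuous_re continuous_const).inter
          ((isClosed_le (Complex.continuous_im.abs) continuous_const).inter ?_))
      exact isClosed_eq fx_diff.continuous continuous_const
    refine Metric.isCompact_of_isClosed_isBounded hcl ?_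
    refine (Metric.isBounded_closedBall (x := (0 : ℂ)) (r := 1 / 2 + |T|)).subset fun w hw => ?_
    obtain ⟨h1, h2, h3, -⟩ := hw
    rw [mem_closedBall_zero_iff]
    refine (Complex.norm_le_abs_re_add_abs_im w).trans ?_
    rw [abs_of_nonneg h1]
    linarith [le_abs_self T]
  obtain ⟨ρ, hρ, hρK⟩ : ∃ ρ : ℝ, ρ < 1 / 2 ∧ ∀ w ∈ K, w.re ≤ ρ := by
    rcases K.eq_empty_or_nonempty with h | h
    · exact ⟨0, by norm_num, fun w hw => by rw [h] at hw; exact absurd hw (notMem_empty w)⟩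
    · obtain ⟨w0, hw0, hmax⟩ := hKc.exists_isMaxOn h Complex.continuous_re.continuousOn
      refine ⟨w0.re, ?_, fun w hw => hmax hw⟩
      have := fx_zero_re hw0.2.2.2
      exact (abs_lt.1 this).2
  refine ⟨max (1 - σ) (max (1 / 2 + ρ) (1 / 2)), max_lt (by linarith) (max_lt (by linarith) (by norm_num)), ?_⟩
  intro s hs
  by_contra hcon
  rw [not_le] at hcon
  obtain ⟨h1, h2⟩ := max_lt_iff.1 hcon
  obtain ⟨h2, h3⟩ := max_lt_iff.1 h2
  have hs1 : s ≠ 1 := by
    rintro rfl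
    exact riemannZeta_one_ne_zero hs
  set w : ℂ := s - 1 / 2 with hw
  have hwre : w.re = s.re - 1 / 2 := by
    rw [hw, sub_re]
    norm_num
  have hfx : fx w = 0 := by
    rw [fx_eq (by rw [hwre]; linarith) (by
      intro h
      apply hs1
      rw [hw] at h
      linear_combination h)]
    rw [show (1 / 2 + w : ℂ) = s by rw [hw]; ring, hs, mul_zero]
  have hlt := (abs_lt.1 (fx_zero_re hfx)).2
  rcases le_or_gt |w.im| T with h4 | h4
  · have := hρK w ⟨by rw [hwre]; linarith, hlt.le, h4, hfx⟩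
    rw [hwre] at this
    linarith
  · rcases lt_abs.1 h4 with h5 | h5
    · exact H w h5.le (by rw [hwre]; linarith) hfx
    · refine H (starRingEnd ℂ w) (by rw [Complex.conj_im]; exact h5.le)
        (by rw [Complex.conj_re, hwre]; linarith) ?_
      rw [fx_conj, hfx, map_zero]

theorem half_of_hyp {c : ℝ} (hc : 8 < c) {N0 : ℕ}
    (H : ∀ d n : ℕ, N0 ≤ n → (d : ℝ) ≤ Real.exp (c * n) →
      ∀ z : ℂ, Jv d (fun j => iteratedDeriv (n + j) FF 0) z = 0 → z.im = 0) :
    ∃ θ : ℝ, θ < 1 ∧ ∀ s : ℂ, riemannZeta s = 0 → s.re ≤ θ := by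
  obtain ⟨σ, hσ, T, hT⟩ := strip_of_hyp saddleLow smooth_prop hc H
  exact half_plane_of_strip hσ hT

theorem hyp_of_half {θ : ℝ} (hθ : θ < 1) (h : ∀ s : ℂ, riemannZeta s = 0 → s.re ≤ θ) :
    ∃ c : ℝ, 8 < c ∧ ∃ N0 : ℕ, ∀ d n : ℕ, N0 ≤ n → (d : ℝ) ≤ Real.exp (c * n) →
      ∀ z : ℂ, Jv d (fun j => iteratedDeriv (n + j) FF 0) z = 0 → z.im = 0 := by
  obtain ⟨b, hb1, hb2, hb⟩ := Pool.Agent.Helper68.ZF.est_zf hθ
    (fun s hs h0 => absurd (h s h0) (not_le.2 hs))
  refine ⟨(8 + 4 / b) / 2, ?_, hyp_of_est hb1 hb ?_ ?_⟩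
  · have : 8 < 4 / b := by
      rw [lt_div_iff₀ (by linarith)]; linarith
    linarith
  · positivity
  · have : 4 / b * b = 4 := by field_simp
    linarith

end Pool.Agent.Helper75.JE
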