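import Pool.Agent.Helper75.JE.S1E

set_option autoImplicit false

open Complex

namespace Pool.Agent.Helper75.JE

open Pool.Agent.Helper75.Jen

/-- the size of `fx` at height `τ`, normalised to the imaginary axis -/
noncomputable def Mf (τ : ℝ) : ℝ := ‖fx (1 + τ * I)‖ * Real.exp (-(Real.log τ / 2))

/-- the growth bound (package D1) -/
def Growth : Prop := ∃ C τ0 : ℝ, 0 ≤ C ∧ 2 ≤ τ0 ∧ ∀ τ : ℝ, τ0 ≤ τ → ∀ v : ℂ, ‖v‖ ≤ 2 * τ →
  ‖fx v‖ ≤ Mf τ * Real.exp (C * Real.log τ * (1 + ‖v - τ * I‖))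

end Pool.Agent.Helper75.JE
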