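import Pool.Agent.Helper75.JE.Sad2

set_option autoImplicit false
set_option maxHeartbeats 1000000

open Complex Filter Topology Metric MeasureTheory intervalIntegral

namespace Pool.Agent.Helper75.JE

open Pool.Agent.Helper75.Jen

/-- location of the zeros: monotone modulus near the axis, comparison away from it -/
lemma zeros_of_pos2 {F : ℂ → ℂ} (hF : Differentiable ℂ F)
    (hsym : ∀ z, F (starRingEnd ℂ z) = starRingEnd ℂ (F z)) (m : ℕ) {ρ : ℝ} (hρ : 0 < ρ)
    {x Y0 Y : ℝ} (hpos : ∀ y : ℝ, |y| ≤ Y0 → 0 < (I * AA (deriv F) m ρ ⟨x, y⟩ *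
      starRingEnd ℂ (AA F m ρ ⟨x, y⟩)).re)
    (hcmp : ∀ y : ℝ, Y0 < y → y ≤ Y → ‖AA F m ρ ⟨x, -y⟩‖ < ‖AA F m ρ ⟨x, y⟩‖)
    {y : ℝ} (hy : |y| ≤ Y)
    (hz : iteratedDeriv m F ⟨x, y⟩ = 0) : y = 0 ∧ iteratedDeriv (m + 1) F ⟨x, y⟩ ≠ 0 := by
  by_cases hy0 : |y| ≤ Y0
  · exact zeros_of_pos hF hsym m hρ hpos hy0 hz
  · exfalso
    push Not at hy0
    have hkey : ∀ y : ℝ, iteratedDeriv m F ⟨x, y⟩ = 0 →
        ‖AA F m ρ ⟨x, y⟩‖ = ‖AA F m ρ ⟨x, -y⟩‖ := by
      intro y hz
      have h1 := cauchy_form hF hsym m hρ ⟨x, y⟩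
      rw [hz, zero_mul] at h1
      have h2 : starRingEnd ℂ (⟨x, y⟩ : ℂ) = ⟨x, -y⟩ := rfl
      rw [h2] at h1
      have h3 : AA F m ρ ⟨x, y⟩ = -starRingEnd ℂ (AA F m ρ ⟨x, -y⟩) := by linear_combination -h1
      rw [h3, norm_neg, Complex.norm_conj]
    have h1 := hkey y hz
    rcases le_total 0 y with h0 | h0
    · rw [abs_of_nonneg h0] at hy hy0
      have := hcmp y hy0 hy
      linarith
    · rw [abs_of_nonpos h0] at hy hy0
      have := hcmp (-y) hy0 hy
      rw [neg_neg] at this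
      linarith

theorem local_real {b δ C D R L M ρ : ℝ} {Φ : ℂ → ℂ} {m : ℕ} (hΦ : Differentiable ℂ Φ)
    (hsym : ∀ z, Φ (starRingEnd ℂ z) = starRingEnd ℂ (Φ z))
    (h : Loc b C D R L M Φ) (hB : Big δ C D R L m) (hM : 0 < M) (hC : 1 ≤ C) (hD : 1 ≤ D)
    (hb : 1 / 4 ≤ b)
    (hδ : 0 < δ) (hδ1 : δ ≤ 1 / 8) (hL : 0 < L) (hρ : L * ρ = 2 * m) (hρ1 : b + 4 * δ ≤ ρ)
    (hR : ρ + 1 ≤ R) {y : ℝ} (hy : |y| ≤ 1) (hz : iteratedDeriv m Φ ⟨0, y⟩ = 0) :
    y = 0 ∧ iteratedDeriv (m + 1) Φ ⟨0, y⟩ ≠ 0 := by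
  have hm9 := hB.c1
  have hm0 : (0 : ℝ) < m := by linarith
  have hρ0 : 0 < ρ := by linarith
  have hR0 : 0 < R := by linarith
  have hsm : Real.sqrt m ^ 2 = m := Real.sq_sqrt hm0.le
  have hs0 : 0 < Real.sqrt m := Real.sqrt_pos.2 hm0
  have hs1 : (30000 : ℝ) ≤ Real.sqrt m := by
    apply Real.le_sqrt_of_sq_le
    linarith
  have hnn : ∀ y : ℝ, ‖(⟨0, y⟩ : ℂ)‖ = |y| := by
    intro y
    rw [show (⟨0, y⟩ : ℂ) = (y : ℂ) * I by apply Complex.ext <;> simp, norm_mul, Complex.norm_I,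
        mul_one, Complex.norm_real, Real.norm_eq_abs]
  refine zeros_of_pos2 hΦ hsym m hρ0 (Y0 := 2 * δ) (Y := 1) ?_ ?_ hy hz
  · intro y hy
    obtain ⟨a1, a2⟩ := abs_le.1 hy
    obtain ⟨k1, k2, k3, k4, k5⟩ := core hΦ h hB hM hC hD hb hδ hδ1 hL hρ (by linarith)
      (by linarith) (x := 0) (y := y) (by rw [hnn]; linarith) a1 (by linarith)
    set B := ‖Φ ⟨0, ρ + y⟩‖ with hBd
    set A := AA Φ m ρ ⟨0, y⟩ with hA
    set E := (∫ φ in (0 : ℝ)..Real.pi, Ic Φ m ρ ⟨0, y⟩ φ * cexp (-(φ * I))) - (-I) * A with hE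
    have hparts := AA_parts hΦ m (ρ := ρ) ⟨0, y⟩
    have he1 : (∫ φ in (0 : ℝ)..Real.pi, Ic Φ m ρ ⟨0, y⟩ φ * cexp (-(φ * I))) = -I * A + E := by
      rw [hE]; ring
    rw [he1] at hparts
    set bd := Φ ((⟨0, y⟩ : ℂ) - ρ) * cexp (-((m + 1) * Real.pi * I)) - Φ ((⟨0, y⟩ : ℂ) + ρ) with hbd
    have hn0 : ‖(⟨0, y⟩ : ℂ)‖ ≤ 1 := by
      rw [show (⟨0, y⟩ : ℂ) = (y : ℂ) * I by apply Complex.ext <;> simp, norm_mul, Complex.norm_I,
        mul_one, Complex.norm_real, Real.norm_eq_abs]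
      linarith
    have hedge : ∀ σ : ℝ, |σ| = ρ → ‖Φ ((⟨0, y⟩ : ℂ) + σ)‖ ≤ B / (20 * m) := by
      intro σ hσ
      refine (h.up _ ?_).trans (le_trans ?_ k5)
      · refine (norm_add_le _ _).trans ?_
        rw [Complex.norm_real, Real.norm_eq_abs, hσ]
        linarith
      · refine mul_le_mul_of_nonneg_left (Real.exp_le_exp.2
          (mul_le_mul_of_nonneg_left ?_ (by linarith))) (by positivity)
        simp only [Complex.add_im, Complex.ofReal_im, add_zero]
        refine max_le ?_ (le_max_right _ _)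
        rw [abs_le]
        constructor
        · have := le_max_right y b
          linarith
        · exact le_max_left _ _
    have hbdn : ‖bd‖ ≤ B / (10 * m) := by
      have e1 := hedge (-ρ) (by rw [abs_neg, abs_of_pos hρ0])
      have e2 := hedge ρ (abs_of_pos hρ0)
      have e3 : ‖cexp (-((m + 1) * Real.pi * I))‖ = 1 := by
        rw [show (-((m + 1) * Real.pi * I) : ℂ) = ((-((m + 1) * Real.pi) : ℝ) : ℂ) * I by
          push_cast; ring, Complex.norm_exp_ofReal_mul_I]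
      rw [hbd]
      refine (norm_sub_le _ _).trans ?_
      rw [norm_mul, e3, mul_one]
      have e4 : ((⟨0, y⟩ : ℂ) - ρ) = (⟨0, y⟩ : ℂ) + ((-ρ : ℝ) : ℂ) := by push_cast; ring
      rw [e4]
      calc ‖Φ ((⟨0, y⟩ : ℂ) + ((-ρ : ℝ) : ℂ))‖ + ‖Φ ((⟨0, y⟩ : ℂ) + (ρ : ℂ))‖
          ≤ B / (20 * m) + B / (20 * m) := add_le_add e1 e2
        _ = B / (10 * m) := by field_simp; ring
    have hre : ρ * (I * AA (deriv Φ) m ρ ⟨0, y⟩ * starRingEnd ℂ A).re =
        (m + 1) * ‖A‖ ^ 2 + ((bd + I * (m + 1) * E) * starRingEnd ℂ A).re := by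
      have e1 : (ρ : ℂ) * (I * AA (deriv Φ) m ρ ⟨0, y⟩ * starRingEnd ℂ A) =
          (((m + 1) * ‖A‖ ^ 2 : ℝ) : ℂ) + (bd + I * (m + 1) * E) * starRingEnd ℂ A := by
        have e2 : A * starRingEnd ℂ A = ((‖A‖ ^ 2 : ℝ) : ℂ) := by
          rw [Complex.mul_conj, Complex.normSq_eq_norm_sq]
        push_cast at e2 ⊢
        linear_combination (starRingEnd ℂ A) * hparts + (m + 1 : ℂ) * e2 -
          (m + 1 : ℂ) * A * starRingEnd ℂ A * I_sq
      have := congrArg Complex.re e1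
      rw [Complex.re_ofReal_mul, Complex.add_re, Complex.ofReal_re] at this
      exact this
    have herr : |((bd + I * (m + 1) * E) * starRingEnd ℂ A).re| ≤
        (B / (10 * m) + (m + 1) * (16 * B / m)) * ‖A‖ := by
      refine (Complex.abs_re_le_norm _).trans ?_
      rw [norm_mul, Complex.norm_conj]
      refine mul_le_mul_of_nonneg_right ?_ (norm_nonneg _)
      refine (norm_add_le _ _).trans (add_le_add hbdn ?_)
      rw [norm_mul, norm_mul, Complex.norm_I, one_mul]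
      have : ‖((m : ℂ) + 1)‖ = (m : ℝ) + 1 := by
        have : ((m : ℂ) + 1) = ((m + 1 : ℕ) : ℂ) := by push_cast; ring
        rw [this, Complex.norm_natCast]; push_cast; ring
      rw [this]
      gcongr
    have hApos : 0 < ‖A‖ := lt_of_lt_of_le (by positivity) k3
    have hmain : (B / (10 * m) + (m + 1) * (16 * B / m)) < (m + 1) * ‖A‖ := by
      have e1 : B / (10 * m) + (m + 1) * (16 * B / m) ≤ 33 * B := by
        have e2 : B / (10 * m) ≤ B := by
          rw [div_le_iff₀ (by positivity)]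
          nlinarith
        have e3 : (m + 1) * (16 * B / m) ≤ 32 * B := by
          rw [mul_div_assoc', div_le_iff₀ hm0]
          nlinarith
        linarith
      have e4 : 33 * B < (m + 1) * ‖A‖ := by
        calc 33 * B < Real.sqrt m * B := by nlinarith
          _ = m * (B / Real.sqrt m) := by
              nth_rewrite 2 [← hsm]
              field_simp
          _ ≤ (m + 1) * ‖A‖ := by
              refine mul_le_mul (by linarith) k3 (by positivity) (by positivity)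
      linarith
    have : 0 < ρ * (I * AA (deriv Φ) m ρ ⟨0, y⟩ * starRingEnd ℂ A).re := by
      rw [hre]
      have h5 := (abs_le.1 herr).1
      have h6 := mul_lt_mul_of_pos_right hmain hApos
      nlinarith
    exact pos_of_mul_pos_right this hρ0.le
  · intro y hy1 hy2
    obtain ⟨k1, k2, k3, k4, k5⟩ := core hΦ h hB hM hC hD hb hδ hδ1 hL hρ (by linarith)
      (by linarith) (x := 0) (y := y) (by rw [hnn, abs_of_pos (by linarith)]; linarith)
      (show -(2 * δ) ≤ y by linarith) (by linarith)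
    set B := ‖Φ ⟨0, ρ + y⟩‖ with hBd
    have hup : ‖AA Φ m ρ ⟨0, -y⟩‖ ≤ C * M * Real.exp (L / 2 * (ρ + y - 4 * δ)) * |Real.pi - 0| := by
      unfold AA
      refine intervalIntegral.norm_integral_le_of_norm_le_const ?_
      intro φ hφ
      rw [Set.uIoc_of_le Real.pi_pos.le] at hφ
      have hn : ‖Ic Φ m ρ ⟨0, -y⟩ φ‖ = ‖Φ ((⟨0, -y⟩ : ℂ) + ρ * cexp (φ * I))‖ := by
        unfold Ic
        rw [norm_mul, show (-(m * φ * I) : ℂ) = ((-(m * φ) : ℝ) : ℂ) * I by push_cast; ring,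
          Complex.norm_exp_ofReal_mul_I, mul_one]
      rw [hn]
      refine (h.up _ ?_).trans ?_
      · refine (norm_add_le _ _).trans ?_
        rw [norm_mul, Complex.norm_exp_ofReal_mul_I, mul_one, Complex.norm_real,
          Real.norm_of_nonneg hρ0.le]
        have : ‖(⟨0, -y⟩ : ℂ)‖ ≤ 1 := by
          rw [show (⟨0, -y⟩ : ℂ) = ((-y : ℝ) : ℂ) * I by apply Complex.ext <;> simp, norm_mul,
            Complex.norm_I, mul_one, Complex.norm_real, Real.norm_eq_abs, abs_neg, abs_le]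
          constructor <;> linarith
        linarith
      · gcongr
        have him : ((⟨0, -y⟩ : ℂ) + ρ * cexp (φ * I)).im = -y + ρ * Real.sin φ := by
          simp only [Complex.add_im, Complex.mul_im, Complex.ofReal_re, Complex.ofReal_im, zero_mul,
            add_zero, Complex.exp_ofReal_mul_I_im]
        rw [him]
        have hs0 := Real.sin_nonneg_of_mem_Icc (Set.Ioc_subset_Icc_self hφ)
        have hs1 := Real.sin_le_one φ
        have hs2 : ρ * Real.sin φ ≤ ρ := by nlinarith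
        have hs3 : 0 ≤ ρ * Real.sin φ := by positivity
        refine max_le ?_ (by linarith)
        rw [abs_le]
        constructor
        · linarith
        · linarith
    rw [sub_zero, abs_of_pos Real.pi_pos] at hup
    refine lt_of_le_of_lt hup (lt_of_lt_of_le ?_ k3)
    rw [lt_div_iff₀ hs0]
    have hc4 := hB.c4
    have e1 : Real.exp (-(L / 2 * (4 * δ))) ≤ Real.exp (-(L / 2 * (δ / (20 * R)))) := by
      apply Real.exp_le_exp.2
      have : δ / (20 * R) ≤ 4 * δ := by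
        rw [div_le_iff₀ (by positivity)]
        nlinarith
      have := mul_le_mul_of_nonneg_left this (show 0 ≤ L / 2 by linarith)
      linarith
    have e2 : Real.pi * Real.sqrt m < 20 * m := by
      have := Real.pi_lt_d2
      nlinarith
    have hCB : 0 < C * B := by positivity
    have e3 : C * (C * M * Real.exp (L / 2 * (ρ + y - 4 * δ)) * Real.pi * Real.sqrt m) < C * B := by
      calc C * (C * M * Real.exp (L / 2 * (ρ + y - 4 * δ)) * Real.pi * Real.sqrt m)
          = (Real.pi * Real.sqrt m) * C ^ 2 * Real.exp (-(L / 2 * (4 * δ))) *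
              (M * Real.exp (L / 2 * (ρ + y))) := by
            rw [show L / 2 * (ρ + y - 4 * δ) = L / 2 * (ρ + y) + -(L / 2 * (4 * δ)) by ring,
              Real.exp_add]
            ring
        _ ≤ (Real.pi * Real.sqrt m) * C ^ 2 * Real.exp (-(L / 2 * (4 * δ))) * (C * B) := by
            gcongr
        _ < (20 * m) * C ^ 2 * Real.exp (-(L / 2 * (4 * δ))) * (C * B) := by
            gcongr
        _ ≤ (20 * m) * C ^ 2 * Real.exp (-(L / 2 * (δ / (20 * R)))) * (C * B) := by gcongr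
        _ ≤ 1 * (C * B) := by gcongr
        _ = C * B := one_mul _
    exact lt_of_mul_lt_mul_left e3 (by linarith)

end Pool.Agent.Helper75.JE
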