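import Pool.Agent.Helper75.JE.Lap2
import Pool.Agent.Helper75.HD.Seg

set_option autoImplicit false
set_option maxHeartbeats 1000000

open Complex Filter Topology Metric MeasureTheory intervalIntegral

namespace Pool.Agent.Helper75.JE

open Pool.Agent.Helper75.Jen

/-- Gronwall in both directions -/
lemma gron_abs {h h' : ℝ → ℂ} {φ1 κ K : ℝ} (hK : 0 < K)
    (hh : ∀ φ, |φ - φ1| ≤ κ → HasDerivAt h (h' φ) φ)
    (hb : ∀ φ, |φ - φ1| ≤ κ → ‖h' φ‖ ≤ K * ‖h φ‖) :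
    ∀ φ, |φ - φ1| ≤ κ → ‖h φ - h φ1‖ ≤ ‖h φ1‖ * (Real.exp (K * |φ - φ1|) - 1) := by
  have key : ∀ σ : ℝ, |σ| = 1 → ∀ s ∈ Set.Icc (0 : ℝ) κ,
      ‖h (φ1 + σ * s) - h φ1‖ ≤ ‖h φ1‖ * (Real.exp (K * s) - 1) := by
    intro σ hσ s hs
    have hin : ∀ t ∈ Set.Icc (0 : ℝ) κ, |φ1 + σ * t - φ1| ≤ κ := by
      intro t ht
      rw [add_sub_cancel_left, abs_mul, hσ, one_mul, abs_of_nonneg ht.1]
      exact ht.2
    have := Pool.Agent.Helper75.HD.gron (φ := fun s : ℝ => h (φ1 + σ * s))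
      (φ' := fun s : ℝ => (σ : ℂ) * h' (φ1 + σ * s)) (S := κ) (K := K) hK
      (fun t ht => by
        have h1 := (hh (φ1 + σ * t) (hin t ht))
        have h2 : HasDerivAt (fun t : ℝ => φ1 + σ * t) σ t := by
          simpa using ((hasDerivAt_id t).const_mul σ).const_add φ1
        have h3 := h1.scomp t h2
        refine h3.congr_deriv ?_
        rw [Complex.real_smul])
      (fun t ht => by
        rw [norm_mul, Complex.norm_real, Real.norm_eq_abs, hσ, one_mul]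
        exact hb _ (hin t ht)) s hs
    simpa using this
  intro φ hφ
  rcases le_total φ1 φ with h1 | h1
  · have h2 : |φ - φ1| = φ - φ1 := abs_of_nonneg (by linarith)
    have := key 1 (by norm_num) (φ - φ1) ⟨by linarith, by rw [← h2]; exact hφ⟩
    rw [h2]
    simpa using this
  · have h2 : |φ - φ1| = φ1 - φ := by rw [abs_of_nonpos (by linarith)]; ring
    have := key (-1) (by norm_num) (φ1 - φ) ⟨by linarith, by rw [← h2]; exact hφ⟩
    rw [h2]
    simpa using this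

/-- local size and logarithmic derivative -/
structure Loc (b C D R L M : ℝ) (Φ : ℂ → ℂ) : Prop where
  up : ∀ ζ : ℂ, ‖ζ‖ ≤ R → ‖Φ ζ‖ ≤ C * M * Real.exp (L / 2 * max |ζ.im| b)
  ri : ∀ ζ : ℂ, ‖ζ‖ ≤ R → b ≤ ζ.im → Φ ζ ≠ 0 ∧ ‖logDeriv Φ ζ + ((L / 2 : ℝ) : ℂ) * I‖ ≤ D ∧
    M * Real.exp (L / 2 * ζ.im) ≤ C * ‖Φ ζ‖

/-- the numerical conditions -/
structure Big (δ C D R L m : ℝ) : Prop where
  c1 : 10 ^ 9 ≤ m
  c2 : 2 * 10 ^ 5 * (D * R) ^ 2 ≤ m
  c3 : 8 / Real.sqrt m ≤ Real.sqrt (δ / R)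
  c4 : 20 * m * C ^ 2 * Real.exp (-(L / 2 * (δ / (20 * R)))) ≤ 1

lemma cos_up {θ : ℝ} (h : |θ| ≤ Real.pi) : Real.cos θ ≤ 1 - θ ^ 2 / 5 := by
  have h1 := Real.cos_le_one_sub_mul_cos_sq h
  have h2 : Real.pi ^ 2 ≤ 10 := by
    have := Real.pi_lt_d2
    have h0 := Real.pi_pos
    nlinarith
  have h3 : (1 : ℝ) / 5 ≤ 2 / Real.pi ^ 2 := by
    rw [div_le_div_iff₀ (by norm_num) (by positivity)]
    linarith
  have := mul_le_mul_of_nonneg_right h3 (sq_nonneg θ)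
  linarith

theorem core {b δ C D R L M ρ : ℝ} {Φ : ℂ → ℂ} {m : ℕ} (hΦ : Differentiable ℂ Φ)
    (h : Loc b C D R L M Φ) (hB : Big δ C D R L m) (hM : 0 < M) (hC : 1 ≤ C) (hD : 1 ≤ D)
    (hb : 1 / 4 ≤ b)
    (hδ : 0 < δ) (hδ1 : δ ≤ 1 / 8) (hL : 0 < L) (hρ : L * ρ = 2 * m) (hρ1 : 1 / 4 ≤ ρ)
    (hR1 : 1 ≤ R) {x y : ℝ} (hR : ρ + ‖(⟨x, y⟩ : ℂ)‖ ≤ R) (hy : -(2 * δ) ≤ y)
    (hy1 : b + 2 * δ ≤ ρ + y) :
    0 < ‖Φ ⟨x, ρ + y⟩‖ ∧ M * Real.exp (L / 2 * (ρ + y)) ≤ C * ‖Φ ⟨x, ρ + y⟩‖ ∧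
    ‖Φ ⟨x, ρ + y⟩‖ / Real.sqrt m ≤ ‖AA Φ m ρ ⟨x, y⟩‖ ∧
    ‖(∫ φ in (0 : ℝ)..Real.pi, Ic Φ m ρ ⟨x, y⟩ φ * cexp (-(φ * I))) - (-I) * AA Φ m ρ ⟨x, y⟩‖ ≤
      16 * ‖Φ ⟨x, ρ + y⟩‖ / m ∧
    C * M * Real.exp (L / 2 * max y b) ≤ ‖Φ ⟨x, ρ + y⟩‖ / (20 * m) := by
  have hm9 := hB.c1
  have hm0 : (0 : ℝ) < m := by linarith
  have hρ0 : 0 < ρ := by linarith
  have hR0 : 0 < R := by linarith
  have hpi := Real.pi_gt_three
  have hpi2 := Real.pi_lt_d2
  set φ1 : ℝ := Real.pi / 2 with hφ1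
  set z : ℂ := ⟨x, y⟩ with hz
  set u : ℝ → ℂ := fun φ => z + ρ * cexp (φ * I) with hu
  set κ : ℝ := Real.sqrt (δ / R) with hκ
  have hκ0 : 0 < κ := Real.sqrt_pos.2 (by positivity)
  have hκ2 : κ ^ 2 = δ / R := Real.sq_sqrt (by positivity)
  have hκR : R * κ ^ 2 = δ := by rw [hκ2]; field_simp
  have hκ1 : κ ≤ 1 / 2 := by
    rw [hκ, Real.sqrt_le_left (by norm_num)]
    rw [div_le_iff₀ hR0]
    nlinarith
  set K : ℝ := D * R with hK
  have hK0 : 0 < K := by positivity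
  have hK1 : 1 ≤ K := by rw [hK]; nlinarith
  have hnormI : ∀ φ : ℝ, ‖cexp (-(m * φ * I))‖ = 1 := by
    intro φ
    rw [show (-(m * φ * I) : ℂ) = ((-(m * φ) : ℝ) : ℂ) * I by push_cast; ring,
      Complex.norm_exp_ofReal_mul_I]
  have hIcn : ∀ φ : ℝ, ‖Ic Φ m ρ z φ‖ = ‖Φ (u φ)‖ := by
    intro φ
    unfold Ic
    rw [norm_mul, hnormI, mul_one]
  have hun : ∀ φ : ℝ, ‖u φ‖ ≤ R := by
    intro φ
    refine (norm_add_le _ _).trans ?_
    rw [norm_mul, Complex.norm_exp_ofReal_mul_I, mul_one, Complex.norm_real,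
      Real.norm_of_nonneg hρ0.le]
    linarith
  have huim : ∀ φ : ℝ, (u φ).im = y + ρ * Real.cos (φ - φ1) := by
    intro φ
    rw [hu]
    simp only [hz, Complex.add_im, Complex.mul_im, Complex.ofReal_re, Complex.ofReal_im, zero_mul,
      add_zero, Complex.exp_ofReal_mul_I_im, hφ1, Real.cos_sub_pi_div_two]
  have hu1 : u φ1 = ⟨x, ρ + y⟩ := by
    rw [hu, hφ1]
    simp only
    have : cexp (((Real.pi / 2 : ℝ) : ℂ) * I) = I := by
      push_cast
      exact Complex.exp_pi_div_two_mul_I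
    rw [this]
    apply Complex.ext <;> simp [hz] <;> ring
  set B : ℝ := ‖Φ ⟨x, ρ + y⟩‖ with hBdef
  have hBu : ‖Φ (u φ1)‖ = B := by rw [hu1]
  -- the value at the saddle
  have hri1 := h.ri (u φ1) (hun φ1) (by rw [huim, sub_self, Real.cos_zero]; linarith)
  have hBlow : M * Real.exp (L / 2 * (ρ + y)) ≤ C * B := by
    have := hri1.2.2
    rw [huim, sub_self, Real.cos_zero, hBu] at this
    rw [show ρ + y = y + ρ * 1 by ring]
    exact this
  have hBpos : 0 < B := by rw [← hBu]; exact norm_pos_iff.2 hri1.1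
  -- the far bound
  set c0 : ℝ := δ / (20 * R) with hc0
  set J : ℝ := C * M * Real.exp (L / 2 * (y + ρ - c0)) with hJ
  have hc0a : c0 ≤ ρ * κ ^ 2 / 5 := by
    rw [hκ2, hc0, div_le_div_iff₀ (by positivity) (by norm_num)]
    have : ρ * (δ / R) * (20 * R) = 20 * ρ * δ := by field_simp
    rw [this]
    nlinarith
  have hc0b : c0 ≤ 2 * δ := by
    rw [hc0, div_le_iff₀ (by positivity)]
    nlinarith
  have hJ0 : 0 ≤ J := by positivity
  have hJle : J ≤ B / (20 * m) := by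
    rw [le_div_iff₀ (by positivity)]
    have e1 : J * (20 * m) = (20 * m * C * Real.exp (-(L / 2 * c0))) *
        (M * Real.exp (L / 2 * (ρ + y))) := by
      rw [hJ, show L / 2 * (y + ρ - c0) = L / 2 * (ρ + y) + -(L / 2 * c0) by ring, Real.exp_add]
      ring
    rw [e1]
    calc (20 * m * C * Real.exp (-(L / 2 * c0))) * (M * Real.exp (L / 2 * (ρ + y)))
        ≤ (20 * m * C * Real.exp (-(L / 2 * c0))) * (C * B) := by gcongr
      _ = (20 * m * C ^ 2 * Real.exp (-(L / 2 * c0))) * B := by ring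
      _ ≤ 1 * B := by gcongr; exact hB.c4
      _ = B := one_mul _
  -- the near region
  have hnear : ∀ φ : ℝ, |φ - φ1| ≤ κ → b ≤ (u φ).im := by
    intro φ hφ
    rw [huim]
    have h1 := Real.one_sub_sq_div_two_le_cos (x := φ - φ1)
    have h2 : (φ - φ1) ^ 2 ≤ κ ^ 2 := by rw [← sq_abs]; gcongr
    have h3 : ρ * (φ - φ1) ^ 2 ≤ δ := by
      calc ρ * (φ - φ1) ^ 2 ≤ R * κ ^ 2 := by gcongr; linarith [norm_nonneg z]
        _ = δ := hκR
    nlinarith
  -- the quotient by the model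
  set mo : ℝ → ℂ := fun φ => m * (cexp ((φ - φ1 : ℝ) * I) - 1 - ((φ - φ1 : ℝ) : ℂ) * I) with hmo
  set hq : ℝ → ℂ := fun φ => Ic Φ m ρ z φ * cexp (-(mo φ)) with hhq
  have hq1 : hq φ1 = Ic Φ m ρ z φ1 := by rw [hhq, hmo]; simp
  have hqIc : ∀ φ, Ic Φ m ρ z φ = hq φ * cexp (mo φ) := by
    intro φ
    rw [hhq]
    simp only
    rw [mul_assoc, ← Complex.exp_add, neg_add_cancel, Complex.exp_zero, mul_one]
  have hqd : ∀ φ : ℝ, |φ - φ1| ≤ κ → HasDerivAt hq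
      (-(ρ * cexp ((φ - φ1 : ℝ) * I) * (logDeriv Φ (u φ) + ((L / 2 : ℝ) : ℂ) * I)) * hq φ) φ := by
    intro φ hφ
    have hne := (h.ri (u φ) (hun φ) (hnear φ hφ)).1
    have h1 : HasDerivAt u (ρ * (cexp (φ * I) * I)) φ := by
      have h2 : HasDerivAt (fun φ : ℝ => (φ : ℂ) * I) I φ := by
        simpa using (Complex.ofRealCLM.hasDerivAt (x := φ)).mul_const I
      exact ((h2.cexp).const_mul (ρ : ℂ)).const_add z
    have h3 := (hΦ (u φ)).hasDerivAt.scomp φ h1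
    have h4 : HasDerivAt (fun φ : ℝ => cexp (-(m * φ * I))) (cexp (-(m * φ * I)) * (-(m * I))) φ := by
      have h5 : HasDerivAt (fun φ : ℝ => -((m : ℂ) * (φ : ℂ) * I)) (-(m * I)) φ := by
        have h6 := (((Complex.ofRealCLM.hasDerivAt (x := φ)).const_mul (m : ℂ)).mul_const I).fun_neg
        refine h6.congr_deriv ?_
        simp
      exact h5.cexp
    have h5 : HasDerivAt (fun φ : ℝ => ((φ - φ1 : ℝ) : ℂ) * I) I φ := by
      have h6 : HasDerivAt (fun φ : ℝ => φ - φ1) 1 φ := (hasDerivAt_id φ).sub_const _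
      have h7 := h6.ofReal_comp.mul_const I
      simpa using h7
    have h6 : HasDerivAt mo (m * (cexp ((φ - φ1 : ℝ) * I) * I - I)) φ := by
      exact (((h5.cexp).sub_const 1).sub h5).const_mul (m : ℂ)
    have h7 : HasDerivAt (fun φ => cexp (-(mo φ)))
        (cexp (-(mo φ)) * (-(m * (cexp ((φ - φ1 : ℝ) * I) * I - I)))) φ := (h6.fun_neg).cexp
    have h8 := (h3.mul h4).mul h7
    refine h8.congr_deriv ?_
    simp only [Function.comp, Pi.mul_apply, smul_eq_mul, hhq, Ic]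
    have e1 : cexp (φ * I) = I * cexp ((φ - φ1 : ℝ) * I) := by
      have : (φ : ℂ) * I = ((Real.pi / 2 : ℝ) : ℂ) * I + ((φ - φ1 : ℝ) : ℂ) * I := by
        rw [hφ1]; push_cast; ring
      rw [this, Complex.exp_add]
      congr 1
      push_cast
      exact Complex.exp_pi_div_two_mul_I
    have e2 : (m : ℂ) = ρ * ((L / 2 : ℝ) : ℂ) := by
      have : (m : ℝ) = ρ * (L / 2) := by linarith
      exact_mod_cast this
    have e3 : deriv Φ (u φ) = logDeriv Φ (u φ) * Φ (u φ) := by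
      rw [logDeriv_apply]
      field_simp
    have e4 : z + ρ * cexp (φ * I) = u φ := rfl
    rw [e4, e3]
    generalize cexp (-(m * φ * I)) = E1
    generalize cexp (-(mo φ)) = E2
    rw [e1, e2]
    linear_combination (ρ * cexp ((φ - φ1 : ℝ) * I) * logDeriv Φ (u φ) * Φ (u φ) * E1 * E2) * I_sq
  have hgr := gron_abs (h := hq) (κ := κ) (K := K) (φ1 := φ1) hK0 hqd (by
    intro φ hφ
    rw [norm_mul, norm_neg, norm_mul, norm_mul, Complex.norm_exp_ofReal_mul_I, mul_one,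
      Complex.norm_real, Real.norm_of_nonneg hρ0.le]
    have h1 := (h.ri (u φ) (hun φ) (hnear φ hφ)).2.1
    have : ρ * ‖logDeriv Φ (u φ) + ((L / 2 : ℝ) : ℂ) * I‖ ≤ R * D := by
      gcongr
      linarith [norm_nonneg z]
    rw [hK, mul_comm D R]
    gcongr)
  rw [hq1, hIcn, hBu] at hgr
  have hsm : Real.sqrt m ^ 2 = m := Real.sq_sqrt hm0.le
  have hs0 : 0 < Real.sqrt m := Real.sqrt_pos.2 hm0
  have hs1 : (30000 : ℝ) ≤ Real.sqrt m := by
    apply Real.le_sqrt_of_sq_le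
    linarith
  have hsK : 400 * K ≤ Real.sqrt m := by
    apply Real.le_sqrt_of_sq_le
    have := hB.c2
    nlinarith
  have hmore : ∀ φ : ℝ, ‖cexp (mo φ)‖ = Real.exp (m * (Real.cos (φ - φ1) - 1)) := by
    intro φ
    rw [Complex.norm_exp, hmo]
    congr 1
    have e : (cexp ((φ - φ1 : ℝ) * I)).re = Real.cos (φ - φ1) := by
      rw [Complex.exp_ofReal_mul_I_re]
    simp only [mul_re, sub_re, one_re, natCast_re, natCast_im, zero_mul, sub_zero, e,
      ofReal_re, ofReal_im, I_re, I_im, mul_zero, mul_one]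
  have hup1 : ∀ φ ∈ Set.Icc 0 Real.pi, |φ - φ1| ≤ κ → ‖Ic Φ m ρ z φ‖ ≤
      11 / 10 * B * Real.exp (-(3 / 20) * m * (φ - φ1) ^ 2) := by
    intro φ _ hφ
    rw [hqIc, norm_mul, hmore]
    have h1 : ‖hq φ‖ ≤ B * Real.exp (K * |φ - φ1|) := by
      have h2 := hgr φ hφ
      have h3 : ‖hq φ‖ ≤ ‖hq φ - Ic Φ m ρ z φ1‖ + ‖Ic Φ m ρ z φ1‖ := by
        have := norm_add_le (hq φ - Ic Φ m ρ z φ1) (Ic Φ m ρ z φ1)
        rwa [sub_add_cancel] at this
      rw [hIcn, hBu] at h3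
      linarith
    have h2 := cos_up (θ := φ - φ1) (by linarith)
    have h3 : K * |φ - φ1| ≤ 1 / 20 + 1 / 20 * (m * (φ - φ1) ^ 2) := by
      have h4 : 400 * K * |φ - φ1| ≤ Real.sqrt m * |φ - φ1| := by gcongr
      have h5 : (Real.sqrt m * |φ - φ1|) ^ 2 = m * (φ - φ1) ^ 2 := by
        rw [mul_pow, sq_abs, hsm]
      nlinarith [sq_nonneg (Real.sqrt m * |φ - φ1| - 1)]
    have h4 : Real.exp (1 / 20) ≤ 11 / 10 := by
      have := Real.exp_bound' (x := 1 / 20) (by norm_num) (by norm_num) (n := 3) (by norm_num)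
      refine this.trans ?_
      norm_num [Finset.sum_range_succ, Nat.factorial]
    calc ‖hq φ‖ * Real.exp (m * (Real.cos (φ - φ1) - 1))
        ≤ (B * Real.exp (K * |φ - φ1|)) * Real.exp (-(1 / 5) * (m * (φ - φ1) ^ 2)) := by
          refine mul_le_mul h1 (Real.exp_le_exp.2 ?_) (Real.exp_pos _).le (by positivity)
          have := mul_le_mul_of_nonneg_left h2 hm0.le
          nlinarith
      _ = B * Real.exp (K * |φ - φ1| + -(1 / 5) * (m * (φ - φ1) ^ 2)) := by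
          rw [mul_assoc, ← Real.exp_add]
      _ ≤ B * Real.exp (1 / 20 + -(3 / 20) * m * (φ - φ1) ^ 2) := by
          refine mul_le_mul_of_nonneg_left (Real.exp_le_exp.2 ?_) hBpos.le
          linarith
      _ = Real.exp (1 / 20) * B * Real.exp (-(3 / 20) * m * (φ - φ1) ^ 2) := by
          rw [Real.exp_add]; ring
      _ ≤ _ := by gcongr
  have hup2 : ∀ φ ∈ Set.Icc 0 Real.pi, κ < |φ - φ1| → ‖Ic Φ m ρ z φ‖ ≤ J := by
    intro φ hφ hk
    rw [hIcn]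
    refine (h.up (u φ) (hun φ)).trans ?_
    rw [hJ]
    have hab : |φ - φ1| ≤ Real.pi / 2 := by
      rw [abs_le, hφ1]
      constructor
      · linarith [hφ.1]
      · linarith [hφ.2]
    have hc0' : 0 ≤ Real.cos (φ - φ1) :=
      Real.cos_nonneg_of_neg_pi_div_two_le_of_le (by linarith [(abs_le.1 hab).1])
        (abs_le.1 hab).2
    have hc1 := cos_up (θ := φ - φ1) (by linarith)
    have hsq : κ ^ 2 ≤ (φ - φ1) ^ 2 := by
      rw [← sq_abs (φ - φ1)]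
      gcongr
    gcongr
    rw [huim]
    have h5 : 0 ≤ ρ * Real.cos (φ - φ1) := by positivity
    have h6 : ρ * Real.cos (φ - φ1) ≤ ρ - ρ * κ ^ 2 / 5 := by
      have h7 : Real.cos (φ - φ1) ≤ 1 - κ ^ 2 / 5 := by linarith
      have := mul_le_mul_of_nonneg_left h7 hρ0.le
      linarith
    refine max_le ?_ (by linarith)
    rw [abs_le]
    constructor
    · linarith
    · linarith
  set c : ℂ := Ic Φ m ρ z φ1 / B with hc
  have hBne : (B : ℂ) ≠ 0 := by exact_mod_cast hBpos.ne'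
  have hcn : ‖c‖ = 1 := by
    rw [hc, norm_div, Complex.norm_real, Real.norm_of_nonneg hBpos.le, hIcn, hBu,
      div_self hBpos.ne']
  have hlow : ∀ φ : ℝ, |φ - φ1| ≤ 8 / Real.sqrt m →
      9 / 10 * B * Real.exp (-(1 / 2) * m * (φ - φ1) ^ 2) ≤ (starRingEnd ℂ c * Ic Φ m ρ z φ).re := by
    intro φ hφ
    have hφκ : |φ - φ1| ≤ κ := hφ.trans hB.c3
    have hg := hgr φ hφκ
    set ϑ := φ - φ1 with hϑ
    have h8 : 8 / Real.sqrt m ≤ 1 / 3000 := by
      rw [div_le_div_iff₀ hs0 (by norm_num)]; linarith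
    have hϑ1 : |ϑ| ≤ 1 / 3000 := hφ.trans h8
    have hϑs : |ϑ| * Real.sqrt m ≤ 8 := by rwa [le_div_iff₀ hs0] at hφ
    have hϑm : m * |ϑ| ^ 2 ≤ 64 := by
      have : (|ϑ| * Real.sqrt m) ^ 2 ≤ 8 ^ 2 := by gcongr
      rw [mul_pow, hsm] at this
      linarith
    set X : ℂ := m * (cexp (ϑ * I) - 1 - ϑ * I + ϑ ^ 2 / 2) with hX
    have hXn : ‖X‖ ≤ 1 / 40 := by
      have a1 := exp_third (ϑ := ϑ) (by linarith)
      rw [hX, norm_mul, Complex.norm_natCast]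
      have a3 : (m : ℝ) * ‖cexp (ϑ * I) - 1 - ϑ * I + ϑ ^ 2 / 2‖ ≤ m * |ϑ| ^ 3 := by gcongr
      have a4 : (m : ℝ) * |ϑ| ^ 3 ≤ 64 * (8 / Real.sqrt m) := by
        calc (m : ℝ) * |ϑ| ^ 3 = m * |ϑ| ^ 2 * |ϑ| := by ring
          _ ≤ 64 * (8 / Real.sqrt m) := by gcongr
      have a5 : 64 * (8 / Real.sqrt m) ≤ 64 / 3000 := by linarith
      linarith
    have hKϑ : K * |ϑ| ≤ 1 / 50 := by
      have h4 : 400 * K * |ϑ| ≤ Real.sqrt m * |ϑ| := by gcongr
      nlinarith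
    have hexpK : Real.exp (K * |ϑ|) - 1 ≤ 1 / 40 := by
      have h4 : Real.exp (K * |ϑ|) ≤ Real.exp (1 / 50) := Real.exp_le_exp.2 hKϑ
      have h5 : Real.exp (1 / 50) ≤ 41 / 40 := by
        have := Real.exp_bound' (x := 1 / 50) (by norm_num) (by norm_num) (n := 3) (by norm_num)
        refine this.trans ?_
        norm_num [Finset.sum_range_succ, Nat.factorial]
      linarith
    set I1 := Ic Φ m ρ z φ1 with hI1
    have hI1n : ‖I1‖ = B := by rw [hI1, hIcn, hBu]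
    set e : ℂ := hq φ - I1 with he
    have hen : ‖e‖ ≤ 1 / 40 * B := by
      calc ‖e‖ ≤ B * (Real.exp (K * |ϑ|) - 1) := hg
        _ ≤ B * (1 / 40) := by gcongr
        _ = _ := by ring
    have hmoX : mo φ = ((-(1 / 2) * m * ϑ ^ 2 : ℝ) : ℂ) + X := by
      show (m : ℂ) * (cexp ((ϑ : ℂ) * I) - 1 - (ϑ : ℂ) * I) = _
      rw [hX]
      push_cast
      ring
    have hcI : starRingEnd ℂ c * I1 = (B : ℂ) := by
      rw [hc, map_div₀, Complex.conj_ofReal]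
      have : starRingEnd ℂ I1 * I1 = ((B ^ 2 : ℝ) : ℂ) := by
        rw [mul_comm, Complex.mul_conj, Complex.normSq_eq_norm_sq, hI1n]
      rw [div_mul_eq_mul_div, this]
      push_cast
      field_simp
    have hval : starRingEnd ℂ c * Ic Φ m ρ z φ =
        ((Real.exp (-(1 / 2) * m * ϑ ^ 2) : ℝ) : ℂ) *
          ((B : ℂ) + ((B : ℂ) * (cexp X - 1) + starRingEnd ℂ c * e * cexp X)) := by
      rw [hqIc, hmoX, Complex.exp_add, ← Complex.ofReal_exp]
      have : hq φ = I1 + e := by rw [he]; ring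
      rw [this]
      linear_combination ((Real.exp (-(1 / 2) * m * ϑ ^ 2) : ℝ) : ℂ) * cexp X * hcI
    rw [hval, Complex.re_ofReal_mul, Complex.add_re, Complex.ofReal_re]
    have hX1 : ‖cexp X - 1‖ ≤ 1 / 20 := by
      have := Complex.norm_exp_sub_one_le (x := X) (by linarith)
      linarith
    have hX2 : ‖cexp X‖ ≤ 21 / 20 := by
      have := norm_add_le (cexp X - 1) 1
      rw [sub_add_cancel, norm_one] at this
      linarith
    have hrest : ‖(B : ℂ) * (cexp X - 1) + starRingEnd ℂ c * e * cexp X‖ ≤ 1 / 10 * B := by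
      refine (norm_add_le _ _).trans ?_
      rw [norm_mul, norm_mul, norm_mul, Complex.norm_conj, hcn, one_mul, Complex.norm_real,
        Real.norm_of_nonneg hBpos.le]
      calc B * ‖cexp X - 1‖ + ‖e‖ * ‖cexp X‖ ≤ B * (1 / 20) + (1 / 40 * B) * (21 / 20) := by gcongr
        _ ≤ 1 / 10 * B := by nlinarith
    have h9 := (abs_le.1 ((Complex.abs_re_le_norm _).trans hrest)).1
    have h10 : 0 < Real.exp (-(1 / 2) * m * ϑ ^ 2) := Real.exp_pos _
    calc 9 / 10 * B * Real.exp (-(1 / 2) * m * ϑ ^ 2) =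
        Real.exp (-(1 / 2) * m * ϑ ^ 2) * (9 / 10 * B) := by ring
      _ ≤ _ := by
          refine mul_le_mul_of_nonneg_left ?_ h10.le
          linarith
  have hfin := laplace2 (I := Ic Φ m ρ z) (c := c) (B := B) (J := J) (κ := κ) (m := m) (φ1 := φ1)
    (Ic_cont hΦ m ρ z) (by linarith) hBpos hcn (by rw [hφ1]; linarith) (by rw [hφ1]; linarith)
    hJ0 hJle hB.c3 hup1 hup2 hlow
  have hei : cexp (-(φ1 * I)) = -I := by
    rw [hφ1]
    push_cast
    rw [show (-(Real.pi / 2 * I) : ℂ) = -(Real.pi / 2 * I) from rfl, Complex.exp_neg,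
      Complex.exp_pi_div_two_mul_I, Complex.inv_I]
  refine ⟨hBpos, hBlow, hfin.1, ?_, ?_⟩
  · have := hfin.2
    rw [hei] at this
    exact this
  · refine le_trans ?_ hJle
    rw [hJ]
    gcongr
    refine max_le (by linarith) (by linarith)

end Pool.Agent.Helper75.JE
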