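import Pool.Agent.Helper75.JE.Fin

set_option autoImplicit false
set_option maxHeartbeats 1000000

open Complex Filter Topology Metric MeasureTheory Set

namespace Pool.Agent.Helper75.JE

open Pool.Agent.Helper75.Jen

/-- the converse for the derivatives of the xi function: if all zeros of `fx^(m)` up to the height
`e^(Am)` are on the imaginary axis, then `fx` has no zeros at large heights to the right of `2/A` -/
theorem xi_strip_gr (hSL : SaddleLow) {β : ℝ} (hfx' : FxGr β) {A : ℝ} (hA : 0 < A) (hβA : β ≤ 2 / A)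
    {m0 : ℕ} (H : ∀ m : ℕ, m0 ≤ m → ∀ w : ℂ, |w.im| ≤ Real.exp (A * m) →
      iteratedDeriv m fx w = 0 → w.re ≤ 0) {e : ℝ} (he : 0 < e) :
    ∃ T : ℝ, ∀ w : ℂ, T ≤ w.im → 2 / A + e ≤ w.re → fx w ≠ 0 := by
  rcases lt_or_ge (1 / 2) (2 / A + e) with hbig | hsmall
  · refine ⟨0, fun w _ hw h0 => ?_⟩
    have := (abs_lt.1 (fx_zero_re h0)).2
    linarith
  set b0 : ℝ := 2 / A + e with hb0
  set ρ1 : ℝ := 2 / A + e / 8 with hρ1
  set ρ2 : ℝ := 2 / A + e / 2 with hρ2
  have h2A : 0 < 2 / A := by positivity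
  have hρ10 : 0 < ρ1 := by positivity
  have hρ12 : ρ1 < ρ2 := by rw [hρ1, hρ2]; linarith
  have hρ2b : ρ2 < b0 := by rw [hρ2, hb0]; linarith
  have hβρ : β ≤ ρ2 := by rw [hρ2]; linarith
  have hAρ : A * ρ1 = 2 + A * e / 8 := by
    rw [hρ1, mul_add]; field_simp
  obtain ⟨ε, hε, L0, HC⟩ := conv_gr hSL (ρ1 := ρ1) (ρ2 := ρ2) (b0 := b0) (σ := 1) hρ10 hρ12.le
    hρ2b hsmall one_pos
  obtain ⟨τ1, hτ1, H1⟩ := hfx' (ε / 2) 12 (by positivity) (by norm_num)
  obtain ⟨K, hK, HK⟩ := Pool.Agent.Helper82.JE.size_right (δ := 1) (R := 12) one_pos le_rfl (by norm_num)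
  have hAe : 0 < A * e := by positivity
  set L1 : ℝ := max L0 (max (1 / (ρ2 - ρ1)) (max (m0 / ρ1) (max (72 * K / ε)
    (max (8 * Real.log 2 / (A * e)) 1)))) with hL1
  refine ⟨max τ1 (max 360 (Real.exp (2 * L1))), fun w0 hw0 hw0re hfx => ?_⟩
  simp only [max_le_iff] at hw0
  obtain ⟨a1, a3, a4⟩ := hw0
  obtain ⟨b, hb⟩ : ∃ b : ℝ, b = w0.re := ⟨_, rfl⟩
  obtain ⟨τ, hτ⟩ : ∃ τ : ℝ, τ = w0.im := ⟨_, rfl⟩
  rw [← hτ] at a1 a3 a4
  rw [← hb] at hw0re
  have hw0eq : w0 = (b : ℂ) + τ * I := by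
    rw [hb, hτ]; exact (Complex.re_add_im w0).symm
  have hb2 : |b| < 1 / 2 := by rw [hb]; exact fx_zero_re hfx
  have hb2' := abs_lt.1 hb2
  have hτ0 : 0 < τ := by linarith
  obtain ⟨L, hL⟩ : ∃ L : ℝ, L = Real.log τ / 2 := ⟨_, rfl⟩
  have hLL1 : L1 ≤ L := by
    rw [hL, le_div_iff₀ (by norm_num), Real.le_log_iff_exp_le hτ0, mul_comm]
    exact a4
  have hLL := hLL1
  rw [hL1] at hLL
  simp only [max_le_iff] at hLL
  obtain ⟨l1, l2, l3, l4, l5, l6⟩ := hLL
  have hL0 : 0 < L := by linarith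
  have hM := Mf_pos τ
  -- the parameters
  set m : ℕ := ⌈ρ1 * L⌉₊ with hm
  have hm1 : ρ1 * L ≤ m := Nat.le_ceil _
  have hm2 : (m : ℝ) < ρ1 * L + 1 := Nat.ceil_lt_add_one (by positivity)
  have hm0 : 0 < m := by
    have : (0 : ℝ) < m := lt_of_lt_of_le (by positivity) hm1
    exact_mod_cast this
  have hm3 : (m : ℝ) ≤ ρ2 * L := by
    rw [div_le_iff₀ (by linarith)] at l2
    linarith
  obtain ⟨n, hn⟩ : ∃ n : ℕ, m = n + 1 := ⟨m - 1, by omega⟩
  have hm0m : m0 ≤ m := by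
    rw [div_le_iff₀ hρ10] at l3
    have : (m0 : ℝ) ≤ m := by linarith
    exact_mod_cast this
  -- the height
  have hheight : τ + 11 ≤ Real.exp (A * m) := by
    have h1 : A * (ρ1 * L) ≤ A * m := by gcongr
    have h2 : Real.exp (A * (ρ1 * L)) = τ * Real.exp (A * e / 8 * L) := by
      have : A * (ρ1 * L) = Real.log τ + A * e / 8 * L := by
        rw [← mul_assoc, hAρ, hL]; ring
      rw [this, Real.exp_add, Real.exp_log hτ0]
    have h3 : 2 ≤ Real.exp (A * e / 8 * L) := by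
      rw [← Real.log_le_iff_le_exp (by norm_num)]
      rw [div_le_iff₀ hAe] at l5
      linarith
    have h4 : Real.exp (A * (ρ1 * L)) ≤ Real.exp (A * m) := Real.exp_le_exp.2 h1
    rw [h2] at h4
    nlinarith
  -- the shifted function
  set G : ℂ → ℂ := fun w => fx ((τ * I) + 1 * w) with hG
  have hGd : Differentiable ℂ G := fx_diff.comp (by fun_prop)
  have hre : ∀ w : ℂ, ((τ * I : ℂ) + 1 * w).re = w.re := by intro w; simp
  have him : ∀ w : ℂ, ((τ * I : ℂ) + 1 * w).im = τ + w.im := by intro w; simp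
  have hU1 : ∀ w : ℂ, ‖w‖ ≤ 12 → ‖G w‖ ≤ Mf τ * Real.exp (L * max |w.re| ρ2 + ε * L) := by
    intro w hw
    have h1 := H1 τ a1 ((τ * I) + 1 * w) (by rw [hre]; exact (Complex.abs_re_le_norm w).trans hw)
      (by rw [him, add_sub_cancel_left]; exact (Complex.abs_im_le_norm w).trans hw)
    rw [hre, ← hL] at h1
    refine h1.trans (mul_le_mul_of_nonneg_left (Real.exp_le_exp.2 ?_) hM.le)
    have h2 : L * max |w.re| β ≤ L * max |w.re| ρ2 := by gcongr
    have h3 : 0 ≤ ε * L := by positivity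
    linarith
  have h5 : Mf τ * Real.exp (L * 5 - ε * L) ≤ ‖G 5‖ := by
    have h5r : ((τ * I : ℂ) + 1 * 5).re = 5 := by rw [hre]; norm_num
    have h5i : ((τ * I : ℂ) + 1 * 5).im - τ = 0 := by rw [him]; norm_num
    obtain ⟨g1, -, g3⟩ := HK τ (by linarith) ((τ * I) + 1 * 5) (by rw [h5r]; norm_num)
      (by rw [h5r]; norm_num) (by rw [h5i]; norm_num)
    rw [h5r, ← hL] at g3
    have g3' := (abs_le.1 g3).1
    have hf1 : fx (1 + τ * I) ≠ 0 := by
      intro h0
      have h1 := fx_zero_re h0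
      have h2 : (1 + (τ : ℂ) * I).re = 1 := by simp
      rw [h2] at h1
      norm_num at h1
    have hpos1 := norm_pos_iff.2 hf1
    have hpos5 := norm_pos_iff.2 g1
    have hMe : Mf τ * Real.exp (L * 5 - ε * L) =
        Real.exp (Real.log ‖fx (1 + τ * I)‖ + (4 * L - ε * L)) := by
      unfold Mf
      rw [Real.exp_add, Real.exp_log hpos1, mul_assoc, ← Real.exp_add, ← hL]
      congr 2
      ring
    rw [hMe, ← Real.le_log_iff_exp_le hpos5]
    have h6 : 72 * K ≤ ε * L := by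
      rw [div_le_iff₀ hε] at l4
      linarith
    linarith
  have hnz : ∀ w : ℂ, 0 < w.re → ‖w‖ ≤ 11 → iteratedDeriv (n + 1) G w ≠ 0 := by
    intro w hw hw2 h0
    have e0 := congrFun (iter_aff fx_diff (τ * I) 1 m) w
    rw [one_pow, one_mul] at e0
    rw [hG, ← hn, e0] at h0
    have h1 := H m hm0m _ (by
      rw [him]
      have h2 := (Complex.abs_im_le_norm w).trans hw2
      have h3 := abs_le.1 h2
      rw [abs_of_nonneg (by linarith [h3.1])]
      linarith [h3.2]) h0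
    rw [hre] at h1
    linarith
  have hend := HC G (Mf τ) L b n hGd hM l1 (by
      have : (m : ℝ) = n + 1 := by rw [hn]; push_cast; ring
      linarith) (by
      have : (m : ℝ) = n + 1 := by rw [hn]; push_cast; ring
      linarith) hw0re hb2'.2.le hU1 h5 hnz
  have hGb : G b = 0 := by
    rw [hG]
    simp only
    rw [show (τ * I : ℂ) + 1 * b = w0 by rw [hw0eq]; ring]
    exact hfx
  rw [hGb, norm_zero] at hend
  have : 0 < Mf τ * Real.exp (L * b - 1 * L) := by positivity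
  linarith

end Pool.Agent.Helper75.JE
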